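import Mathlib

/-!
# Idempotents `e` with `(1 - e) g e = 0`: chains
-/

set_option autoImplicit false
set_option linter.all false

namespace Pool.Agent.Q69.Cut

variable {R : Type*} [Ring R] [Algebra ℚ R] (S : Subalgebra ℚ R)

/-- `e` is an idempotent of the subalgebra `S` with `(1 - e) g e = 0` for all `g` in `S`. -/
structure TI (e : R) : Prop where
  mem : e ∈ S
  idem : e * e = e
  tri : ∀ g ∈ S, (1 - e) * g * e = 0

variable {S} {e f g : R}

lemma TI.eq (h : TI S e) (hg : g ∈ S) : g * e = e * g * e := by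
  have h1 := h.tri g hg
  rw [sub_mul, sub_mul, one_mul, sub_eq_zero] at h1
  exact h1

lemma TI.of_eq (hm : e ∈ S) (hi : e * e = e) (h : ∀ g ∈ S, g * e = e * g * e) : TI S e :=
  ⟨hm, hi, fun g hg => by rw [sub_mul, sub_mul, one_mul, ← h g hg, sub_self]⟩

lemma TI.one : TI S (1 : R) := ⟨S.one_mem, one_mul 1, fun g _ => by rw [sub_self, zero_mul, zero_mul]⟩

lemma TI.zero : TI S (0 : R) := ⟨S.zero_mem, zero_mul 0, fun g _ => mul_zero _⟩

lemma TI.mul_top (he : TI S e) (hf : TI S f) : f * (e * f) = e * f := by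
  have h1 := hf.eq he.mem
  rw [← mul_assoc]
  exact h1.symm

lemma TI.mul (he : TI S e) (hf : TI S f) : TI S (e * f) := by
  refine TI.of_eq (S.mul_mem he.mem hf.mem) ?_ fun g hg => ?_
  · rw [mul_assoc, he.mul_top hf, ← mul_assoc, he.idem]
  · have h1 : g * (e * f) = e * (g * (e * f)) := by
      rw [← mul_assoc g e f, he.eq hg]
      simp only [← mul_assoc]
      rw [he.idem]
    have h2 : g * (e * f) = f * (g * (e * f)) := by
      have h3 := hf.eq (S.mul_mem hg he.mem)
      calc g * (e * f) = g * e * f := (mul_assoc _ _ _).symm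
        _ = f * (g * e) * f := h3
        _ = _ := by simp only [mul_assoc]
    calc g * (e * f) = e * (g * (e * f)) := h1
      _ = e * (f * (g * (e * f))) := by rw [← h2]
      _ = _ := by simp only [mul_assoc]

/-- A chain of products: `D 0 = f`, `D (k + 1) = c (N - 1 - k) * D k`. -/
def Dn (f : R) (c : ℕ → R) (N : ℕ) : ℕ → R
  | 0 => f
  | (k + 1) => c (N - 1 - k) * Dn f c N k

variable {c : ℕ → R} {N : ℕ}

lemma Dn_TI (hf : TI S f) (hc : ∀ j < N, TI S (c j)) : ∀ k ≤ N, TI S (Dn f c N k)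
  | 0, _ => hf
  | (k + 1), hk => (hc _ (by omega)).mul (Dn_TI hf hc k (by omega))

lemma Dn_mul (hf : TI S f) (hc : ∀ j < N, TI S (c j)) {k l : ℕ} (hkl : k ≤ l) (hl : l ≤ N) :
    Dn f c N k * Dn f c N l = Dn f c N l ∧ Dn f c N l * Dn f c N k = Dn f c N l := by
  induction l, hkl using Nat.le_induction with
  | base => exact ⟨(Dn_TI hf hc k hl).idem, (Dn_TI hf hc k hl).idem⟩
  | succ l hkl ih =>
    obtain ⟨h1, h2⟩ := ih (by omega)
    have h3 : Dn f c N l * Dn f c N (l + 1) = Dn f c N (l + 1) :=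
      (hc (N - 1 - l) (by omega)).mul_top (Dn_TI hf hc l (by omega))
    constructor
    · rw [← h3, ← mul_assoc, h1]
    · change c (N - 1 - l) * Dn f c N l * Dn f c N k = c (N - 1 - l) * Dn f c N l
      rw [mul_assoc, h2]

/-- The differences of the chain. -/
def fam (f : R) (c : ℕ → R) (N : ℕ) (j : ℕ) : R :=
  if j < N then Dn f c N (N - 1 - j) - Dn f c N (N - j) else 0

lemma fam_lt {j : ℕ} (hj : j < N) : fam f c N j = Dn f c N (N - 1 - j) - Dn f c N (N - j) :=
  if_pos hj

lemma fam_ge {j : ℕ} (hj : N ≤ j) : fam f c N j = 0 := if_neg (by omega)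

lemma Dn_N (hc0 : c 0 = 0) (hN : 0 < N) : Dn f c N N = 0 := by
  obtain ⟨n, rfl⟩ : ∃ n, N = n + 1 := ⟨N - 1, by omega⟩
  change c (n + 1 - 1 - n) * _ = 0
  rw [show n + 1 - 1 - n = 0 by omega, hc0, zero_mul]

lemma fam_mem (hf : TI S f) (hc : ∀ j < N, TI S (c j)) (j : ℕ) : fam f c N j ∈ S := by
  by_cases hj : j < N
  · rw [fam_lt hj]
    exact S.sub_mem (Dn_TI hf hc _ (by omega)).mem (Dn_TI hf hc _ (by omega)).mem
  · rw [fam_ge (by omega)]
    exact S.zero_mem

/-- `fam j` lies under the member of the chain of level `j + 1` and of every higher level. -/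
lemma fam_under (hf : TI S f) (hc : ∀ j < N, TI S (c j)) {j k : ℕ} (hk : k + j + 1 ≤ N) :
    Dn f c N k * fam f c N j = fam f c N j ∧ fam f c N j * Dn f c N k = fam f c N j := by
  rw [fam_lt (by omega), mul_sub, sub_mul, (Dn_mul hf hc (by omega) (by omega)).1,
    (Dn_mul hf hc (by omega) (by omega)).1, (Dn_mul hf hc (by omega) (by omega)).2,
    (Dn_mul hf hc (by omega) (by omega)).2]
  exact ⟨rfl, rfl⟩

/-- `fam j` is orthogonal to the members of the chain of level at most `j`. -/
lemma fam_over (hf : TI S f) (hc : ∀ j < N, TI S (c j)) {j k : ℕ} (hj : N ≤ k + j) (hk : k ≤ N) :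
    Dn f c N k * fam f c N j = 0 ∧ fam f c N j * Dn f c N k = 0 := by
  by_cases h : j < N
  · rw [fam_lt h, mul_sub, sub_mul,
      (Dn_mul hf hc (k := N - 1 - j) (l := k) (by omega) hk).2,
      (Dn_mul hf hc (k := N - j) (l := k) (by omega) hk).2,
      (Dn_mul hf hc (k := N - 1 - j) (l := k) (by omega) hk).1,
      (Dn_mul hf hc (k := N - j) (l := k) (by omega) hk).1]
    exact ⟨sub_self _, sub_self _⟩
  · rw [fam_ge (by omega), mul_zero, zero_mul]
    exact ⟨rfl, rfl⟩

lemma fam_mul (hf : TI S f) (hc : ∀ j < N, TI S (c j)) (i j : ℕ) :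
    fam f c N i * fam f c N j = if i = j then fam f c N i else 0 := by
  by_cases hi : i < N
  swap
  · rw [fam_ge (by omega), zero_mul]
    split_ifs <;> rfl
  by_cases hj : j < N
  swap
  · rw [fam_ge (by omega : N ≤ j), mul_zero, if_neg (by omega)]
  rw [fam_lt hi, sub_mul]
  rcases lt_trichotomy i j with h | h | h
  · rw [(fam_over hf hc (by omega) (by omega)).1, (fam_over hf hc (by omega) (by omega)).1,
      if_neg (by omega), sub_zero]
  · subst h
    rw [(fam_under hf hc (by omega)).1, (fam_over hf hc (by omega) (by omega)).1, if_pos rfl,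
      sub_zero, fam_lt hi]
  · rw [(fam_under hf hc (by omega)).1, (fam_under hf hc (by omega)).1, if_neg (by omega),
      sub_self]

lemma fam_sum' (m : ℕ) (hm : m ≤ N) :
    ∑ j ∈ Finset.range m, fam f c N j = Dn f c N (N - m) - Dn f c N N := by
  induction m with
  | zero => rw [Finset.range_zero, Finset.sum_empty, Nat.sub_zero, sub_self]
  | succ m ih =>
    rw [Finset.sum_range_succ, ih (by omega), fam_lt (by omega),
      show N - 1 - m = N - (m + 1) by omega]
    abel

/-- The partial sums are the members of the chain. -/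
lemma fam_sum (hc0 : c 0 = 0) (hN : 0 < N) {m : ℕ} (hm : m ≤ N) :
    ∑ j ∈ Finset.range m, fam f c N j = Dn f c N (N - m) := by
  rw [fam_sum' m hm, Dn_N hc0 hN, sub_zero]

/-- The family does not raise the level. -/
lemma fam_NR (hf : TI S f) (hc : ∀ j < N, TI S (c j)) (hg : g ∈ S) {a b : ℕ} (hab : a < b) :
    fam f c N b * g * fam f c N a = 0 := by
  by_cases hb : b < N
  swap
  · rw [fam_ge (by omega), zero_mul, zero_mul]
  have h1 := (fam_under hf hc (j := a) (k := N - 1 - a) (by omega)).1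
  have h2 := (fam_over hf hc (j := b) (k := N - 1 - a) (by omega) (by omega)).2
  have h3 := (Dn_TI hf hc (N - 1 - a) (by omega)).eq hg
  calc fam f c N b * g * fam f c N a = fam f c N b * (g * Dn f c N (N - 1 - a)) * fam f c N a := by
        rw [mul_assoc, mul_assoc, mul_assoc, h1]
    _ = (fam f c N b * Dn f c N (N - 1 - a)) * g * Dn f c N (N - 1 - a) * fam f c N a := by
        rw [h3]; simp only [mul_assoc]
    _ = 0 := by rw [h2, zero_mul, zero_mul, zero_mul]

end Pool.Agent.Q69.Cut
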