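import Pool.Agent.TH133.SelfDual
import Pool.Agent.Q69.Murre.Low
import Pool.Agent.Q69.Murre.Main
import Pool.Agent.Q69.Cut.Ring

/-!
# The Tate twists `h(X)(-l)` as direct summands of `h(X × Y)`
-/

open CategoryTheory AlgebraicGeometry

set_option autoImplicit false
set_option linter.all false

universe u v w

namespace Pool.Agent.Q69.Cut

open Pool.Agent.H914 Pool.Agent.H914.VarClass Pool.Agent.H914.VarClass.Obj Pool.Agent.W492.BB
  Pool.Agent.W550.Corr Pool.Agent.TH133 Pool.Agent.Q69.Murre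

variable {k : Type u} [Field k] {𝒱 : VarClass k} {C : TheoryData.{u, v, 0} 𝒱 ℚ}
  [hC : IsChowProj C] {K : Type w} [Field K]
  {H : WeilTheoryData.{u, v, w} C K} [hH : IsWeilProj H] {X Y Z W : 𝒱.Obj}

include hC

lemma extR_mulCorr (c : C.A Y) (V : 𝒱.Obj) (x : C.A (V.prod Y)) :
    C.extR (C.mulCorr c) V x = C.pull (snd V Y) c * x := by
  rw [TheoryData.extR, TheoryData.mulCorr, C.base_snd, ← C.proj_right, ← C.push_comp,
    ← C.pull_comp]
  have e1 : prodMap (𝟙 V) (Obj.lift (𝟙 Y) (𝟙 Y)) ≫ u12 V Y Y = 𝟙 _ := by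
    apply prod_ext <;> simp [u12]
  have e2 : prodMap (𝟙 V) (Obj.lift (𝟙 Y) (𝟙 Y)) ≫ u13 V Y Y = 𝟙 _ := by
    apply prod_ext <;> simp [u13]
  rw [e1, e2, C.pull_id, C.push_id]

/-- The inclusion `h(X)(-l) → h(X × Y)` attached to `u ∈ CH^l(Y)`. -/
noncomputable def inc (X Y : 𝒱.Obj) (u : C.A Y) : C.A (X.prod (X.prod Y)) :=
  C.pull (prodMap (𝟙 X) (fst X Y)) (dg C X) * C.pull (snd X (X.prod Y)) (C.pull (snd X Y) u)

/-- The retraction `h(X × Y) → h(X)(-l)` attached to `v ∈ CH^(dim Y - l)(Y)`. -/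
noncomputable def ret (X Y : 𝒱.Obj) (v : C.A Y) : C.A ((X.prod Y).prod X) :=
  C.comp (C.mulCorr (C.pull (snd X Y) v)) (C.graph (fst X Y))

lemma inc_mem {l : ℤ} {u : C.A Y} (hu : u ∈ C.gr Y l) :
    inc X Y u ∈ C.gr (X.prod (X.prod Y)) (X.dim + l) :=
  C.mul_mem (C.pull_mem _ (dg_mem C X)) (C.pull_mem _ (C.pull_mem _ hu))

lemma ret_mem {l : ℤ} {v : C.A Y} (hv : v ∈ C.gr Y (Y.dim - l)) :
    ret X Y v ∈ C.gr ((X.prod Y).prod X) ((X.prod Y).dim + (-l)) := by
  have h1 : C.mulCorr (C.pull (snd X Y) v) ∈ C.gr ((X.prod Y).prod (X.prod Y))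
      ((X.prod Y).dim + (Y.dim - l : ℤ)) := by
    have h := C.push_mem (Obj.lift (𝟙 (X.prod Y)) (𝟙 (X.prod Y))) (C.pull_mem (snd X Y) hv)
    have e1 : ((Y.dim : ℤ) - l) + 1 * ((((X.prod Y).prod (X.prod Y)).dim : ℤ) -
        ((X.prod Y).dim : ℤ)) = (X.prod Y).dim + (Y.dim - l : ℤ) := by
      rw [dim_prod (X.prod Y)]; push_cast; ring
    rwa [e1] at h
  have h2 : C.graph (fst X Y) ∈ C.gr ((X.prod Y).prod X) ((X.prod Y).dim + (-(Y.dim : ℤ))) := by
    have h := C.push_mem (Obj.lift (𝟙 (X.prod Y)) (fst X Y)) (C.one_mem (X.prod Y))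
    have e1 : (0 : ℤ) + 1 * ((((X.prod Y).prod X).dim : ℤ) - ((X.prod Y).dim : ℤ)) =
        (X.prod Y).dim + (-(Y.dim : ℤ)) := by
      rw [dim_prod (X.prod Y), dim_prod X Y]; push_cast; ring
    rwa [e1] at h
  have h3 := comp_mem C h1 h2
  have e3 : ((X.prod Y).dim : ℤ) + (((Y.dim : ℤ) - l) + (-(Y.dim : ℤ))) =
      (X.prod Y).dim + (-l) := by ring
  rwa [e3] at h3

lemma inc_ret {u v : C.A Y} (h : C.push (fst X Y) (C.pull (snd X Y) (v * u)) = 1) :
    C.comp (inc X Y u) (ret X Y v) = dg C X := by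
  rw [comp_eq_extR, ret, extR_comp, extR_mulCorr, extR_graph, inc]
  have e1 : C.pull (snd X (X.prod Y)) (C.pull (snd X Y) v) *
      (C.pull (prodMap (𝟙 X) (fst X Y)) (dg C X) *
        C.pull (snd X (X.prod Y)) (C.pull (snd X Y) u)) =
      C.pull (snd X (X.prod Y)) (C.pull (snd X Y) (v * u)) *
        C.pull (prodMap (𝟙 X) (fst X Y)) (dg C X) := by
    rw [map_mul, map_mul, ch_comm C (C.pull (prodMap (𝟙 X) (fst X Y)) (dg C X)), ← mul_assoc]
  rw [e1, C.proj_right, ← C.base_snd, h, map_one, one_mul]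

/-! ### Retracts -/

/-- `h(X)(-l)` is a direct summand of `h(Z)`. -/
structure Retr (C : TheoryData.{u, v, 0} 𝒱 ℚ) (X Z : 𝒱.Obj) (l : ℤ) (i : C.A (X.prod Z))
    (r : C.A (Z.prod X)) : Prop where
  mi : i ∈ C.gr (X.prod Z) (X.dim + l)
  mr : r ∈ C.gr (Z.prod X) (Z.dim + (-l))
  ir : C.comp i r = dg C X

lemma exists_retr (H : WeilTheoryData.{u, v, w} C K) [hH : IsWeilProj H] (X Y : 𝒱.Obj) {l : ℕ}
    (hl : l ≤ Y.dim) : ∃ i r, Retr C X (X.prod Y) l i r := by
  obtain ⟨u, hu, v, hv, huv⟩ := exists_dual_pair (C := C) (H := H) Y hl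
  have hvu : v * u ∈ C.gr Y Y.dim := by
    have := C.mul_mem hv hu
    rwa [sub_add_cancel] at this
  obtain ⟨q, hq⟩ := hC.degree Y (v * u) hvu
  have h1 : C.push (snd Y Y) (C.pull (fst Y Y) (v * u)) = q • (1 : C.A Y) := (hq Y).1
  have h2 : C.push (fst X Y) (C.pull (snd X Y) (v * u)) = q • (1 : C.A X) := (hq X).2
  have hq1 : q = 1 := by
    by_contra hne
    rw [huv] at h1
    have h3 : (q - 1) • (1 : C.A Y) = 0 := by rw [sub_smul, ← h1, one_smul, sub_self]
    have h4 : (1 : C.A Y) = 0 := by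
      have h5 := congrArg (fun z => (q - 1)⁻¹ • z) h3
      simp only [smul_zero] at h5
      rwa [smul_smul, inv_mul_cancel₀ (sub_ne_zero.2 hne), one_smul] at h5
    apply hH.one_ne_zero Y
    rw [← map_one H.cl, h4, map_zero]
  rw [hq1, one_smul] at h2
  exact ⟨inc X Y u, ret X Y v, inc_mem hu, ret_mem hv, inc_ret h2⟩

variable {l : ℤ} {i : C.A (X.prod Z)} {r : C.A (Z.prod X)}

omit hC in
/-- The compression of a self-correspondence of `Z` to the direct summand. -/
noncomputable def cpr (i : C.A (X.prod Z)) (r : C.A (Z.prod X)) (G : Cor C Z) : Cor C X :=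
  C.comp (C.comp i (uc G)) r

omit hC in
/-- The extension by zero of a self-correspondence of the direct summand. -/
noncomputable def lif (i : C.A (X.prod Z)) (r : C.A (Z.prod X)) (g : Cor C X) : Cor C Z :=
  C.comp (C.comp r (uc g)) i

lemma cpr_mul (E F : Cor C Z) (g : Cor C X) :
    cpr i r (E * lif i r g * F) = cpr i r E * g * cpr i r F := by
  change C.comp (C.comp i (C.comp (uc F) (C.comp (C.comp (C.comp r (uc g)) i) (uc E)))) r =
    C.comp (C.comp (C.comp i (uc F)) r) (C.comp (uc g) (C.comp (C.comp i (uc E)) r))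
  simp only [comp_assoc]

lemma cpr_one (h : Retr C X Z l i r) : cpr i r (1 : Cor C Z) = 1 := by
  change C.comp (C.comp i (dg C Z)) r = dg C X
  rw [comp_dg, h.ir]

lemma cpr_zero : cpr i r (0 : Cor C Z) = 0 := by
  change C.comp (C.comp i (0 : C.A (Z.prod Z))) r = 0
  rw [comp_zero, zero_comp]

lemma cpr_sub (E F : Cor C Z) : cpr i r (E - F) = cpr i r E - cpr i r F := by
  change C.comp (C.comp i ((uc E) - (uc F))) r = C.comp (C.comp i (uc E)) r -
    C.comp (C.comp i (uc F)) r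
  rw [comp_sub, sub_comp]

lemma lif_one_mul (h : Retr C X Z l i r) (E : Cor C Z) : cpr i r (lif i r 1 * E) = cpr i r E := by
  have h1 := cpr_mul (i := i) (r := r) 1 E 1
  rw [one_mul, cpr_one h, one_mul, one_mul] at h1
  exact h1

lemma cpr_mem (h : Retr C X Z l i r) {G : Cor C Z} (hG : G ∈ cor0 C Z) : cpr i r G ∈ cor0 C X := by
  have h0 : (uc G) ∈ C.gr (Z.prod Z) (Z.dim + 0) := by rw [add_zero]; exact hG
  have h1 := comp_mem C (comp_mem C h.mi h0) h.mr
  have e : (X.dim : ℤ) + (l + 0 + -l) = X.dim := by ring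
  rw [e] at h1
  exact h1

lemma lif_mem (h : Retr C X Z l i r) {g : Cor C X} (hg : g ∈ cor0 C X) : lif i r g ∈ cor0 C Z := by
  have h0 : (uc g) ∈ C.gr (X.prod X) (X.dim + 0) := by rw [add_zero]; exact hg
  have h1 := comp_mem C (comp_mem C h.mr h0) h.mi
  have e : (Z.dim : ℤ) + (-l + 0 + l) = Z.dim := by ring
  rw [e] at h1
  exact h1

lemma TI_cpr (h : Retr C X Z l i r) {E : Cor C Z} (hE : TI (cor0 C Z) E) :
    TI (cor0 C X) (cpr i r E) := by
  refine ⟨cpr_mem h hE.mem, ?_, fun g hg => ?_⟩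
  · have h1 := cpr_mul (i := i) (r := r) E E 1
    rw [mul_one] at h1
    rw [← h1, ← hE.eq (lif_mem h (cor0 C X).one_mem), lif_one_mul h]
  · have h1 : cpr i r (1 - E) = 1 - cpr i r E := by rw [cpr_sub, cpr_one h]
    rw [← h1, ← cpr_mul, hE.tri _ (lif_mem h hg), cpr_zero]

/-! ### Cuts -/

/-- `e` is an idempotent self-correspondence of degree zero which acts on the cohomology as the
projector onto `⊕_(m < j) H^m(X)`. -/
structure CutR (H : WeilTheoryData.{u, v, w} C K) [IsWeilProj H] (j : ℤ) (e : Cor C X) : Prop where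
  mem : e ∈ cor0 C X
  idem : e * e = e
  act : ∀ (m : ℤ) (a : H.A X), a ∈ H.gr X m → actH C X H e a = if m < j then a else 0

include hH

lemma actH_cpr (G : Cor C Z) (a : H.A X) :
    actH C X H (cpr i r G) a = H.act (H.cl r) (actH C Z H G (H.act (H.cl i) a)) := by
  change H.act (H.cl (C.comp (C.comp i (uc G)) r)) a = _
  rw [actH_comp, actH_comp]
  rfl

lemma actH_lif (g : Cor C X) (a : H.A Z) :
    actH C Z H (lif i r g) a = H.act (H.cl i) (actH C X H g (H.act (H.cl r) a)) := by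
  change H.act (H.cl (C.comp (C.comp r (uc g)) i)) a = _
  rw [actH_comp, actH_comp]
  rfl

lemma HT_lif (h : Retr C X Z l i r) {g : Cor C X} (hg : HT H g) : HT H (lif i r g) := by
  refine HT.of (lif_mem h hg.mem) ?_
  ext a
  rw [actH_lif, hg.act, LinearMap.zero_apply, TheoryData.act_map_zero]
  rfl

lemma CutR_cpr (h : Retr C X Z l i r) {E : Cor C Z} {J : ℤ} (hE : TI (cor0 C Z) E)
    (hc : CutR H J E) : CutR H (J - 2 * l) (cpr i r E) := by
  refine ⟨cpr_mem h hE.mem, (TI_cpr h hE).idem, fun m a ha => ?_⟩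
  rw [actH_cpr, hc.act _ _ (actH_mem H h.mi ha)]
  by_cases hm : m < J - 2 * l
  · rw [if_pos (by omega), if_pos hm, ← actH_comp, h.ir, actH_dg]
  · rw [if_neg (by omega), if_neg hm, TheoryData.act_map_zero]

lemma actH_tpR {E : Cor C X} {J : ℤ} (hc : CutR H J E) (m : ℤ) (a : H.A X) (ha : a ∈ H.gr X m) :
    actH C X H (tpR C X E) a = if 2 * X.dim - J < m then a else 0 := by
  have key : ∀ b : H.A X, H.tr X (actH C X H (tpR C X E) a * b) =
      H.tr X ((if 2 * X.dim - J < m then a else 0) * b) := by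
    intro b
    have h2 : H.tr X ∘ₗ LinearMap.mulLeft K (actH C X H (tpR C X E) a) =
        H.tr X ∘ₗ LinearMap.mulLeft K (if 2 * X.dim - J < m then a else 0) := by
      apply ext_gr H
      intro n b hb
      rw [LinearMap.comp_apply, LinearMap.comp_apply, LinearMap.mulLeft_apply,
        LinearMap.mulLeft_apply]
      have h3 := tr_act' H (X := X) (Y := X) (uc E) b a
      have h4 : H.act (H.cl (uc E)) b = actH C X H E b := rfl
      rw [h4, hc.act _ _ hb] at h3
      have h5 : actH C X H (tpR C X E) a = H.act (H.cl (tp C (uc E))) a := rfl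
      rw [h5, h3]
      by_cases h6 : 2 * X.dim - J < m
      · rw [if_pos h6]
        by_cases h7 : n < J
        · rw [if_pos h7]
        · rw [if_neg h7, mul_zero, map_zero]
          exact (tr_zero H (H.mul_mem ha hb) (by omega)).symm
      · rw [if_neg h6, zero_mul, map_zero]
        by_cases h7 : n < J
        · rw [if_pos h7]
          exact tr_zero H (H.mul_mem ha hb) (by omega)
        · rw [if_neg h7, mul_zero, map_zero]
    exact LinearMap.congr_fun h2 b
  rw [← sub_eq_zero]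
  apply H.nondeg
  intro b
  rw [sub_mul, map_sub, key, sub_self]

lemma CutR_tp {E : Cor C X} {J : ℤ} (hc : CutR H J E) :
    CutR H (2 * X.dim - J + 1) (1 - tpR C X E) := by
  refine ⟨(cor0 C X).sub_mem (cor0 C X).one_mem (tpR_mem hc.mem), ?_, fun m a ha => ?_⟩
  · have h1 : tpR C X E * tpR C X E = tpR C X E := by rw [← tpR_mul, hc.idem]
    rw [mul_sub, mul_one, sub_mul, one_mul, h1, sub_self, sub_zero]
  · rw [map_sub, map_one, LinearMap.sub_apply, actH_tpR hc m a ha]
    change a - _ = _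
    by_cases h : 2 * X.dim - J < m
    · rw [if_pos h, if_neg (by omega), sub_self]
    · rw [if_neg h, if_pos (by omega), sub_zero]

omit hH in
lemma TI_tp {E : Cor C X} (hE : TI (cor0 C X) E) : TI (cor0 C X) (1 - tpR C X E) := by
  have h1 : tpR C X E * tpR C X E = tpR C X E := by rw [← tpR_mul, hE.idem]
  refine ⟨(cor0 C X).sub_mem (cor0 C X).one_mem (tpR_mem hE.mem), ?_, fun g hg => ?_⟩
  · rw [mul_sub, mul_one, sub_mul, one_mul, h1, sub_self, sub_zero]
  · have h2 := hE.tri (tpR C X g) (tpR_mem hg)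
    have h3 := congrArg (tpR C X) h2
    rw [tpR_mul, tpR_mul, tpR_tpR, map_zero, map_sub, tpR_one] at h3
    rw [sub_sub_cancel, mul_assoc]
    exact h3

lemma CutR.mul {e f : Cor C X} {i j : ℤ} (he : CutR H i e) (hf : CutR H j f)
    (h : e * f * (e * f) = e * f) (hij : i ≤ j) : CutR H i (e * f) := by
  refine ⟨(cor0 C X).mul_mem he.mem hf.mem, h, fun m a ha => ?_⟩
  rw [map_mul, Module.End.mul_apply, hf.act m a ha]
  by_cases hm : m < i
  · rw [if_pos (by omega), he.act m a ha]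
  · rw [if_neg hm]
    split_ifs with h1
    · rw [he.act m a ha, if_neg hm]
    · rw [map_zero]

/-- All the cuts of `X` from one cut of `X × X`. -/
lemma exists_cuts (X : 𝒱.Obj)
    {E : Cor C (X.prod X)} (hE : TI (cor0 C (X.prod X)) E) (hc : CutR H (2 * X.dim : ℕ) E) (j : ℕ)
    (hj : j ≤ 2 * X.dim) : ∃ c : Cor C X, TI (cor0 C X) c ∧ CutR H j c := by
  rcases Nat.even_or_odd' j with ⟨t, rfl | rfl⟩
  · obtain ⟨i, r, hr⟩ := exists_retr H X X (l := X.dim - t) (by omega)
    refine ⟨cpr i r E, TI_cpr hr hE, ?_⟩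
    have h1 := CutR_cpr hr hE hc
    have e : ((2 * X.dim : ℕ) : ℤ) - 2 * ((X.dim - t : ℕ) : ℤ) = ((2 * t : ℕ) : ℤ) := by omega
    rwa [e] at h1
  · obtain ⟨i, r, hr⟩ := exists_retr H X X (l := X.dim - t) (by omega)
    refine ⟨cpr i r (1 - tpR C _ E), TI_cpr hr (TI_tp hE), ?_⟩
    have h1 := CutR_cpr hr (TI_tp hE) (CutR_tp hc)
    have e : 2 * ((X.prod X).dim : ℤ) - ((2 * X.dim : ℕ) : ℤ) + 1 -
        2 * ((X.dim - t : ℕ) : ℤ) = ((2 * t + 1 : ℕ) : ℤ) := by
      rw [dim_prod]; omega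
    rwa [e] at h1

/-- A Chow-Kunneth decomposition which does not raise weights, from a complete set of cuts. -/
theorem exists_NR (X : 𝒱.Obj)
    (h : ∀ j : ℕ, 1 ≤ j → j ≤ 2 * X.dim → ∃ c : Cor C X, TI (cor0 C X) c ∧ CutR H j c) :
    ∃ P : ℕ → Cor C X, IsCK H X P ∧ NR P P := by
  classical
  set N := 2 * X.dim + 1 with hN
  let c : ℕ → Cor C X := fun j => if hj : 1 ≤ j ∧ j ≤ 2 * X.dim then (h j hj.1 hj.2).choose else 0
  have hc0 : c 0 = 0 := dif_neg (by omega)
  have hc1 : ∀ j < N, TI (cor0 C X) (c j) := by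
    intro j hj
    by_cases h1 : 1 ≤ j
    · simp only [c]
      rw [dif_pos ⟨h1, by omega⟩]
      exact (h j h1 (by omega)).choose_spec.1
    · have : j = 0 := by omega
      rw [this, hc0]
      exact TI.zero
  have hc2 : ∀ j < N, CutR H j (c j) := by
    intro j hj
    by_cases h1 : 1 ≤ j
    · simp only [c]
      rw [dif_pos ⟨h1, by omega⟩]
      exact (h j h1 (by omega)).choose_spec.2
    · have : j = 0 := by omega
      subst this
      rw [hc0]
      refine ⟨(cor0 C X).zero_mem, zero_mul 0, fun m a ha => ?_⟩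
      rw [map_zero, LinearMap.zero_apply]
      split_ifs with hm
      · rw [H.gr_neg X m (by exact_mod_cast hm)] at ha
        exact ((Submodule.mem_bot _).1 ha).symm
      · rfl
  have hone : TI (cor0 C X) (1 : Cor C X) := TI.one
  have hD : ∀ k ≤ N, CutR H ((N - k : ℕ) : ℤ) (Dn (1 : Cor C X) c N k) := by
    intro k
    induction k with
    | zero =>
      intro _
      refine ⟨(cor0 C X).one_mem, one_mul 1, fun m a ha => ?_⟩
      change actH C X H 1 a = _
      rw [map_one]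
      split_ifs with hm
      · rfl
      · rw [gr_top H (by omega)] at ha
        exact (Submodule.mem_bot _).1 ha
    | succ k ih =>
      intro hk
      have h1 := ih (by omega)
      have h2 := hc2 (N - 1 - k) (by omega)
      have h3 := (Dn_TI hone hc1 (k + 1) hk).idem
      have e : ((N - (k + 1) : ℕ) : ℤ) = ((N - 1 - k : ℕ) : ℤ) := by omega
      rw [e]
      exact h2.mul h1 h3 (by omega)
  refine ⟨fam 1 c N, isCK_of (fam_mem hone hc1) (fun i hi => fam_ge (by omega))
    (fam_mul hone hc1) ?_ ?_, fun γ hγ a b hab => fam_NR hone hc1 hγ hab⟩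
  · rw [fam_sum hc0 (by omega) le_rfl, Nat.sub_self]
    rfl
  · intro i m a ha
    by_cases hi : i < N
    · rw [fam_lt hi, map_sub, LinearMap.sub_apply, (hD _ (by omega)).act m a ha,
        (hD _ (by omega)).act m a ha]
      by_cases h1 : m < ((N - (N - i) : ℕ) : ℤ)
      · rw [if_pos (by omega), if_pos h1, if_neg (by omega), sub_self]
      · rw [if_neg h1, sub_zero]
        congr 1
        apply propext
        constructor
        · intro h2; omega
        · intro h2; omega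
    · rw [fam_ge (by omega), map_zero, LinearMap.zero_apply]
      split_ifs with hm
      · rw [gr_top H (by omega)] at ha
        exact ((Submodule.mem_bot _).1 ha).symm
      · rfl

end Pool.Agent.Q69.Cut
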