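import Pool.Agent.TH133.Defs

/-!
# Lower halves of varieties: definitions
-/

open CategoryTheory AlgebraicGeometry

set_option autoImplicit false

universe u v w

namespace Pool.Agent.Q69.Cut

open Pool.Agent.H914 Pool.Agent.H914.VarClass Pool.Agent.H914.VarClass.Obj Pool.Agent.W492.BB
  Pool.Agent.W550.Corr Pool.Agent.TH133

variable {k : Type u} [Field k] {𝒱 : VarClass k} {C : TheoryData.{u, v, 0} 𝒱 ℚ}
  {K : Type w} [Field K] (H : WeilTheoryData.{u, v, w} C K)

/-- A lower half of `X`: an idempotent self-correspondence `e` of degree zero which acts on the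
cohomology `H(X)` as the projector onto `⊕_(m < dim X) H^m(X)`. -/
structure IsHalf (X : 𝒱.Obj) (e : C.A (X.prod X)) : Prop where
  deg : C.Deg X.dim e
  idem : C.comp e e = e
  act_lt : ∀ (m : ℤ) (a : H.A X), m < X.dim → H.Deg m a → H.act (H.cl e) a = a
  act_ge : ∀ (m : ℤ) (a : H.A X), X.dim ≤ m → H.Deg m a → H.act (H.cl e) a = 0

/-- The idempotent `e` is triangular: `(1 - e) ∘ g ∘ e = 0` for all self-correspondences `g` of
degree zero. -/
def Triangular (C : TheoryData.{u, v, 0} 𝒱 ℚ) (X : 𝒱.Obj) (e : C.A (X.prod X)) : Prop :=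
  ∀ g : C.A (X.prod X), C.Deg X.dim g → C.comp (C.comp e g) (dg C X - e) = 0

/-- Homologically trivial idempotent self-correspondences of degree zero of `X` vanish: the motive
`h(X)` has no direct summand without cohomology. -/
def NoPhantom (X : 𝒱.Obj) : Prop :=
  ∀ q : C.A (X.prod X), C.Deg X.dim q → H.cl q = 0 → C.comp q q = q → q = 0

end Pool.Agent.Q69.Cut
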