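import Pool.Agent.Q69.Cut.MainC

/-!
# Self-dual decompositions from one cut
-/

open CategoryTheory AlgebraicGeometry

set_option autoImplicit false
set_option linter.all false

universe u v w

namespace Pool.Agent.Q69.Cut

open Pool.Agent.H914 Pool.Agent.H914.VarClass Pool.Agent.H914.VarClass.Obj Pool.Agent.W492.BB
  Pool.Agent.W550.Corr Pool.Agent.TH133 Pool.Agent.Q69.Murre

variable {k : Type u} [Field k] {𝒱 : VarClass k} {C : TheoryData.{u, v, 0} 𝒱 ℚ}
  [hC : IsChowProj C] {K : Type w} [Field K]
  {H : WeilTheoryData.{u, v, w} C K} [hH : IsWeilProj H] {X Y Z W : 𝒱.Obj}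

include hC hH

/-- A self-dual Chow-Kunneth decomposition from its first half, which is preserved. (The proof is
that of `selfDual_of_half`.) -/
theorem selfDual_of_half' (q : ℕ → Cor C X) (hm : ∀ n, q n ∈ cor0 C X)
    (hout : ∀ n, X.dim ≤ n → q n = 0)
    (hqq : ∀ m n, q m * q n = if m = n then q m else 0)
    (h1 : ∀ m n, q m * tpR C X (q n) = 0) (h2 : ∀ m n, tpR C X (q m) * q n = 0)
    (hact : ∀ (n : ℕ) (m : ℤ) (a : H.A X), n < X.dim → a ∈ H.gr X m →
      actH C X H (q n) a = if m = n then a else 0)
    (hact' : ∀ (n : ℕ) (m : ℤ) (a : H.A X), n < X.dim → a ∈ H.gr X m →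
      actH C X H (tpR C X (q n)) a = if m = (2 * X.dim - n : ℕ) then a else 0) :
    ∃ π : ℕ → Cor C X, IsCK H X π ∧ IsSelfDual C π ∧ ∀ n < X.dim, π n = q n := by
  set d := X.dim with hd
  have htt : ∀ m n, tpR C X (q m) * tpR C X (q n) = if m = n then tpR C X (q m) else 0 := by
    intro m n
    rw [← tpR_mul, hqq]
    by_cases h : n = m
    · rw [if_pos h, if_pos h.symm, h]
    · rw [if_neg h, if_neg (Ne.symm h), map_zero]
  let e : Cor C X := ∑ n ∈ Finset.range d, (q n + tpR C X (q n))
  have hqe : ∀ m < d, q m * e = q m := by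
    intro m hm'
    simp only [e]
    rw [Finset.mul_sum, Finset.sum_eq_single m]
    · rw [mul_add, hqq, if_pos rfl, h1, add_zero]
    · intro n _ hn
      rw [mul_add, hqq, if_neg (Ne.symm hn), h1, add_zero]
    · intro h
      exact absurd (Finset.mem_range.2 hm') h
  have heq : ∀ m < d, e * q m = q m := by
    intro m hm'
    simp only [e]
    rw [Finset.sum_mul, Finset.sum_eq_single m]
    · rw [add_mul, hqq, if_pos rfl, h2, add_zero]
    · intro n _ hn
      rw [add_mul, hqq, if_neg hn, h2, add_zero]
    · intro h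
      exact absurd (Finset.mem_range.2 hm') h
  have hte : ∀ m < d, tpR C X (q m) * e = tpR C X (q m) := by
    intro m hm'
    simp only [e]
    rw [Finset.mul_sum, Finset.sum_eq_single m]
    · rw [mul_add, htt, if_pos rfl, h2, zero_add]
    · intro n _ hn
      rw [mul_add, htt, if_neg (Ne.symm hn), h2, add_zero]
    · intro h
      exact absurd (Finset.mem_range.2 hm') h
  have het : ∀ m < d, e * tpR C X (q m) = tpR C X (q m) := by
    intro m hm'
    simp only [e]
    rw [Finset.sum_mul, Finset.sum_eq_single m]
    · rw [add_mul, htt, if_pos rfl, h1, zero_add]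
    · intro n _ hn
      rw [add_mul, htt, if_neg hn, h1, add_zero]
    · intro h
      exact absurd (Finset.mem_range.2 hm') h
  have hee : e * e = e := by
    have : e * e = ∑ n ∈ Finset.range d, (q n + tpR C X (q n)) * e := by
      rw [← Finset.sum_mul]
    rw [this]
    apply Finset.sum_congr rfl
    intro n hn
    rw [Finset.mem_range] at hn
    rw [add_mul, hqe n hn, hte n hn]
  have hem : e ∈ cor0 C X := (cor0 C X).sum_mem fun n _ =>
    (cor0 C X).add_mem (hm n) (tpR_mem (hm n))
  let Q : ℕ → Cor C X := fun n => if n < d then q n else if n = d then 1 - e else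
    if n ≤ 2 * d then tpR C X (q (2 * d - n)) else 0
  have Q1 : ∀ n < d, Q n = q n := fun n hn => by simp only [Q]; rw [if_pos hn]
  have Q2 : Q d = 1 - e := by simp [Q]
  have Q3 : ∀ n, d < n → n ≤ 2 * d → Q n = tpR C X (q (2 * d - n)) := fun n hn hn' => by
    simp only [Q]; rw [if_neg (by omega), if_neg (by omega), if_pos hn']
  have Q4 : ∀ n, 2 * d < n → Q n = 0 := fun n hn => by
    simp only [Q]; rw [if_neg (by omega), if_neg (by omega), if_neg (by omega)]
  have Qcases : ∀ n, n < d ∨ n = d ∨ (d < n ∧ n ≤ 2 * d) ∨ 2 * d < n := fun n => by omega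
  have Qe : ∀ n, n ≠ d → Q n * e = Q n ∧ e * Q n = Q n := by
    intro n hn
    rcases Qcases n with h | h | h | h
    · rw [Q1 n h]; exact ⟨hqe n h, heq n h⟩
    · exact absurd h hn
    · rw [Q3 n h.1 h.2]; exact ⟨hte _ (by omega), het _ (by omega)⟩
    · rw [Q4 n h]; exact ⟨zero_mul _, mul_zero _⟩
  have Qsum : ∑ n ∈ Finset.range (2 * d + 1), Q n = 1 := by
    have e1 : Finset.range (2 * d + 1) = Finset.range (d + (d + 1)) := by congr 1; omega
    rw [e1, Finset.sum_range_add, Finset.sum_range_succ']
    have e2 : ∑ x ∈ Finset.range d, Q x = ∑ x ∈ Finset.range d, q x :=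
      Finset.sum_congr rfl fun x hx => Q1 x (Finset.mem_range.1 hx)
    have e3 : ∑ x ∈ Finset.range d, Q (d + (x + 1)) = ∑ x ∈ Finset.range d, tpR C X (q x) := by
      rw [← Finset.sum_range_reflect (fun x => tpR C X (q x))]
      apply Finset.sum_congr rfl
      intro x hx
      rw [Finset.mem_range] at hx
      rw [Q3 _ (by omega) (by omega)]
      congr 2
      omega
    rw [e2, e3, add_zero, Q2]
    simp only [e]
    rw [Finset.sum_add_distrib]
    abel
  refine ⟨Q, isCK_of ?_ ?_ ?_ ?_ ?_, ?_, Q1⟩
  · intro n
    rcases Qcases n with h | h | h | h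
    · rw [Q1 n h]; exact hm n
    · rw [h, Q2]; exact (cor0 C X).sub_mem (cor0 C X).one_mem hem
    · rw [Q3 n h.1 h.2]; exact tpR_mem (hm _)
    · rw [Q4 n h]; exact (cor0 C X).zero_mem
  · exact Q4
  · intro m n
    by_cases hmd : m = d
    · rw [hmd]
      by_cases hnd : n = d
      · rw [if_pos hnd.symm, hnd, Q2, mul_sub, mul_one, sub_mul, one_mul, hee, sub_self,
          sub_zero]
      · rw [if_neg (Ne.symm hnd), Q2, sub_mul, one_mul, (Qe n hnd).2, sub_self]
    · by_cases hnd : n = d
      · rw [if_neg (by omega), hnd, Q2, mul_sub, mul_one, (Qe m hmd).1, sub_self]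
      · rcases Qcases m with h | h | h | h
        · rw [Q1 m h]
          rcases Qcases n with h' | h' | h' | h'
          · rw [Q1 n h', hqq]
          · exact absurd h' hnd
          · rw [Q3 n h'.1 h'.2, h1, if_neg (by omega)]
          · rw [Q4 n h', mul_zero, if_neg (by omega)]
        · exact absurd h hmd
        · rw [Q3 m h.1 h.2]
          rcases Qcases n with h' | h' | h' | h'
          · rw [Q1 n h', h2, if_neg (by omega)]
          · exact absurd h' hnd
          · rw [Q3 n h'.1 h'.2, htt]
            by_cases hmn : m = n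
            · rw [if_pos (by omega), if_pos hmn]
            · rw [if_neg (by omega), if_neg hmn]
          · rw [Q4 n h', mul_zero, if_neg (by omega)]
        · rw [Q4 m h, zero_mul]
          split_ifs
          · rfl
          · rfl
  · exact Qsum
  · have hact2 : ∀ (n : ℕ) (m : ℤ) (a : H.A X), n ≠ d → a ∈ H.gr X m →
        actH C X H (Q n) a = if m = n then a else 0 := by
      intro n m a hn ha
      rcases Qcases n with h | h | h | h
      · rw [Q1 n h, hact n m a h ha]
      · exact absurd h hn
      · rw [Q3 n h.1 h.2, hact' _ m a (by omega) ha]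
        congr 1
        rw [show 2 * X.dim - (2 * d - n) = n by omega]
      · rw [Q4 n h, map_zero, LinearMap.zero_apply]
        split_ifs with hmn
        · rw [hmn, gr_top H (by omega)] at ha
          exact ((Submodule.mem_bot _).1 ha).symm
        · rfl
    intro n m a ha
    by_cases hn : n = d
    · have h3 : actH C X H (∑ n ∈ Finset.range (2 * d + 1), Q n) a = a := by
        rw [Qsum, map_one]; rfl
      rw [map_sum, LinearMap.sum_apply, ← Finset.add_sum_erase _ _
        (Finset.mem_range.2 (show n < 2 * d + 1 by omega))] at h3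
      have h4 : ∀ j ∈ (Finset.range (2 * d + 1)).erase n, actH C X H (Q j) a =
          if m = j then a else 0 := fun j hj => hact2 j m a (by
            rw [Finset.mem_erase] at hj
            rw [← hn]; exact hj.1) ha
      rw [Finset.sum_congr rfl h4] at h3
      by_cases hmn : m = n
      · rw [Finset.sum_eq_zero, add_zero] at h3
        · rw [h3, if_pos hmn]
        · intro j hj
          rw [Finset.mem_erase] at hj
          rw [if_neg]
          intro h5
          apply hj.1
          exact_mod_cast (h5.symm.trans hmn)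
      · rw [if_neg hmn]
        by_cases ha0 : a = 0
        · rw [ha0, map_zero]
        · have hm0 := nonneg_of_mem H ha ha0
          have hm1 : m ≤ 2 * X.dim := by
            by_contra hcon
            rw [gr_top H (by omega)] at ha
            exact ha0 ((Submodule.mem_bot _).1 ha)
          obtain ⟨m, rfl⟩ := Int.eq_ofNat_of_zero_le hm0
          rw [Finset.sum_eq_single m] at h3
          · rw [if_pos rfl] at h3
            exact add_eq_right.1 h3
          · intro j _ hj
            rw [if_neg]
            intro h5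
            apply hj
            exact_mod_cast h5.symm
          · intro h5
            exfalso
            apply h5
            rw [Finset.mem_erase, Finset.mem_range]
            constructor
            · intro h6
              apply hmn
              rw [h6]
            · omega
    · exact hact2 n m a hn ha
  · intro n hn
    change tpR C X (Q n) = Q (2 * d - n)
    rcases Qcases n with h | h | h | h
    · by_cases hn0 : n < d
      · rw [Q1 n h, Q3 _ (by omega) (by omega)]
        congr 2
        omega
      · omega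
    · rw [h, show 2 * d - d = d by omega, Q2, map_sub, tpR_one]
      congr 1
      simp only [e]
      rw [map_sum]
      apply Finset.sum_congr rfl
      intro x _
      rw [map_add, tpR_tpR, add_comm]
    · rw [Q3 n h.1 h.2, tpR_tpR, Q1 _ (by omega)]
    · omega

/-- Removing the phantom `e^t e` from a triangular cut. -/
lemma remove {e : Cor C X} (hT : TI (cor0 C X) e) (hc : CutR H X.dim e) :
    ∃ f : Cor C X, TI (cor0 C X) f ∧ CutR H X.dim f ∧ tpR C X f * f = 0 := by
  set t := tpR C X e with ht
  have htt : t * t = t := by rw [ht, ← tpR_mul, hT.idem]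
  have hee := hT.idem
  set s := t * e with hs
  have hsH : HT H s := by
    refine HT.of ((cor0 C X).mul_mem (tpR_mem hT.mem) hT.mem) ?_
    apply ext_gr H
    intro m a ha
    rw [LinearMap.zero_apply, hs, map_mul, Module.End.mul_apply, hc.act m a ha]
    split_ifs with hm
    · rw [ht, actH_tpR hc m a ha, if_neg (by omega)]
    · rw [map_zero]
  have hst : tpR C X s = s := by rw [hs, ht, tpR_mul, tpR_tpR]
  have hes : e * s = s := by
    have h1 := hT.eq (tpR_mem hT.mem)
    rw [← ht] at h1
    rw [hs, ← mul_assoc]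
    exact h1.symm
  have hse : s * e = s := by rw [hs, mul_assoc, hee]
  have hts : t * s = s := by rw [hs, ← mul_assoc, htt]
  have hst' : s * t = s := by
    have h1 := congrArg (tpR C X) hes
    rw [tpR_mul, hst] at h1
    exact h1
  have hss : s * s = s := by
    calc s * s = t * (e * s) := by rw [hs]; simp only [mul_assoc]
      _ = s := by rw [hes, hts]
  clear_value s
  have hft : tpR C X (e + -s) = t + -s := by rw [map_add, map_neg, hst]
  have hi : (e + -s) * (e + -s) = e + -s := by
    have h1 : (e + -s) * (e + -s) = e * e - e * s - s * e + s * s := by noncomm_ring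
    rw [h1, hee, hes, hse, hss]; abel
  refine ⟨e + -s, ⟨(cor0 C X).add_mem hT.mem ((cor0 C X).neg_mem hsH.mem), hi, fun g hg => ?_⟩,
    hc.add_HT hsH.neg hi, ?_⟩
  · have a1 : (1 - e) * g * e = 0 := hT.tri g hg
    have a2 : ∀ g' ∈ cor0 C X, (1 - e) * g' * s = 0 := by
      intro g' hg'
      have h1 := congrArg (fun z => z * s) (hT.tri g' hg')
      simp only [zero_mul] at h1
      rw [mul_assoc ((1 - e) * g') e s, hes] at h1
      exact h1
    have a3 : s * g * (1 - t) = 0 := by
      have h1 := congrArg (tpR C X) (a2 (tpR C X g) (tpR_mem hg))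
      rw [tpR_mul, tpR_mul, tpR_tpR, map_zero, map_sub, tpR_one, hst, ← mul_assoc] at h1
      exact h1
    have a4 : (1 - t) * (e + -s) = e + -s := by
      have h1 : (1 - t) * (e + -s) = e - s - (t * e - t * s) := by noncomm_ring
      rw [h1, ← hs, hts]; abel
    have a5 : s * g * (e + -s) = 0 := by rw [← a4, ← mul_assoc, a3, zero_mul]
    have h1 : (1 - (e + -s)) * g * (e + -s) =
        (1 - e) * g * e - (1 - e) * g * s + s * g * (e + -s) := by noncomm_ring
    rw [h1, a1, a2 g hg, a5]; abel
  · rw [hft]
    have h1 : (t + -s) * (e + -s) = t * e - t * s - s * e + s * s := by noncomm_ring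
    rw [h1, ← hs, hts, hse, hss]; abel

/-- Orthogonality to the transpose. -/
lemma orthog {e : Cor C X} (hT : TI (cor0 C X) e) (he : CutR H X.dim e)
    (hte : tpR C X e * e = 0) : ∃ f : Cor C X, TI (cor0 C X) f ∧ CutR H X.dim f ∧
      f * tpR C X f = 0 ∧ tpR C X f * f = 0 := by
  set t := tpR C X e with ht
  have htt : t * t = t := by rw [ht, ← tpR_mul, he.idem]
  set x : Cor C X := -((1 / 2 : ℚ) • (e * t)) with hx
  have hxH : HT H x := by
    have h1 : HT H (e * t) := by
      refine HT.of ((cor0 C X).mul_mem he.mem (tpR_mem he.mem)) ?_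
      apply ext_gr H
      intro m a ha
      rw [LinearMap.zero_apply, map_mul, Module.End.mul_apply, ht, actH_tpR he m a ha]
      split_ifs with hm
      · rw [he.act m a ha, if_neg (by omega)]
      · rw [map_zero]
    have h2 : HT H ((1 / 2 : ℚ) • (e * t)) := by
      have h3 : (1 / 2 : ℚ) • (e * t) = (algebraMap ℚ (Cor C X) (1 / 2)) * (e * t) := by
        rw [Algebra.smul_def]
      rw [h3]
      exact h1.mul_left ((cor0 C X).algebraMap_mem _)
    exact h2.neg
  have hee := he.idem
  have e1 : e * x = x := by
    rw [hx, mul_neg, mul_smul_comm, ← mul_assoc, hee]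
  have e2 : x * e = 0 := by
    rw [hx, neg_mul, smul_mul_assoc, mul_assoc, hte, mul_zero, smul_zero, neg_zero]
  have e3 : x * x = 0 := by
    nth_rw 2 [← e1]
    rw [← mul_assoc, e2, zero_mul]
  have hi : (e + x) * (e + x) = e + x := by
    rw [mul_add, add_mul, add_mul, hee, e1, e2, e3]
    abel
  have hf := he.add_HT hxH hi
  have hft : tpR C X (e + x) = t + x := by
    rw [map_add, hx, map_neg, tpR_smul, tpR_mul, ← ht, ht, tpR_tpR]
  have hef : e * (e + x) = e + x := by rw [mul_add, hee, e1]
  have hfe : (e + x) * e = e := by rw [add_mul, hee, e2, add_zero]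
  have e4 : t * x = 0 := by
    rw [hx, mul_neg, mul_smul_comm, ← mul_assoc, hte, zero_mul, smul_zero, neg_zero]
  have e5 : x * t = x := by
    rw [hx, neg_mul, smul_mul_assoc, mul_assoc, htt]
  refine ⟨e + x, ⟨hf.mem, hi, fun g hg => ?_⟩, hf, ?_, ?_⟩
  · have h1 := hT.eq hg
    calc (1 - (e + x)) * g * (e + x) = (1 - (e + x)) * (g * e) * (e + x) := by
          nth_rw 2 [← hef]; simp only [mul_assoc]
      _ = ((1 - (e + x)) * e) * g * e * (e + x) := by rw [h1]; simp only [mul_assoc]
      _ = 0 := by
          rw [sub_mul, one_mul, hfe, sub_self, zero_mul, zero_mul, zero_mul]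
  · rw [hft]
    have h1 : (e + x) * (t + x) = e * t + e * x + x * t + x * x := by noncomm_ring
    rw [h1, e1, e5, e3, add_zero, hx]
    have h2 : e * t = (1 / 2 : ℚ) • (e * t) + (1 / 2 : ℚ) • (e * t) := by
      rw [← add_smul]; norm_num
    nth_rw 1 [h2]
    abel
  · rw [hft]
    have h1 : (t + x) * (e + x) = t * e + t * x + x * e + x * x := by noncomm_ring
    rw [h1, hte, e4, e2, e3]
    simp

lemma Dn_cut {f : Cor C X} {c : ℕ → Cor C X} {N : ℕ} (hf : TI (cor0 C X) f) (hfc : CutR H N f)
    (hc : ∀ j < N, TI (cor0 C X) (c j)) (hcc : ∀ j < N, CutR H j (c j)) :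
    ∀ k ≤ N, CutR H ((N - k : ℕ) : ℤ) (Dn f c N k) := by
  intro k
  induction k with
  | zero => exact fun _ => hfc
  | succ k ih =>
    intro hk
    have h1 := ih (by omega)
    have h2 := hcc (N - 1 - k) (by omega)
    have h3 := (Dn_TI hf hc (k + 1) hk).idem
    have e : ((N - (k + 1) : ℕ) : ℤ) = ((N - 1 - k : ℕ) : ℤ) := by omega
    rw [e]
    exact h2.mul h1 h3 (by omega)

/-- **A self-dual decomposition which does not raise weights from one which does not.** -/
theorem selfDual_of_NR {P : ℕ → Cor C X} (h : IsCK H X P) (hN : NR P P) :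
    ∃ π : ℕ → Cor C X, IsCK H X π ∧ IsSelfDual C π ∧ NR π π := by
  obtain ⟨e, heT, hec, he0⟩ := remove (ct_TI h hN X.dim) (ct_cut h X.dim)
  obtain ⟨f, hfT, hfc, hff, hff'⟩ := orthog heT hec he0
  set d := X.dim with hd
  let c : ℕ → Cor C X := fun j => ct P j
  have hc : ∀ j < d, TI (cor0 C X) (c j) := fun j _ => ct_TI h hN j
  have hcc : ∀ j < d, CutR H j (c j) := fun j _ => ct_cut h j
  have hcut := Dn_cut hfT hfc hc hcc
  let q : ℕ → Cor C X := fam f c d
  have hqm : ∀ n, q n ∈ cor0 C X := fam_mem hfT hc
  have hqout : ∀ n, d ≤ n → q n = 0 := fun n hn => fam_ge hn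
  have hqq : ∀ m n, q m * q n = if m = n then q m else 0 := fam_mul hfT hc
  have hqf : ∀ n, q n * f = q n ∧ f * q n = q n := by
    intro n
    by_cases hn : n < d
    · have h1 := fam_under hfT hc (j := n) (k := 0) (by omega)
      exact ⟨h1.2, h1.1⟩
    · rw [hqout n (by omega), zero_mul, mul_zero]
      exact ⟨rfl, rfl⟩
  have h1 : ∀ m n, q m * tpR C X (q n) = 0 := by
    intro m n
    have e1 : tpR C X (q n) = tpR C X f * tpR C X (q n) := by rw [← tpR_mul, (hqf n).1]
    rw [e1, ← (hqf m).1, mul_assoc, ← mul_assoc f, hff, zero_mul, mul_zero]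
  have h2 : ∀ m n, tpR C X (q m) * q n = 0 := by
    intro m n
    have e1 : tpR C X (q m) = tpR C X (q m) * tpR C X f := by rw [← tpR_mul, (hqf m).2]
    rw [e1, ← (hqf n).2, mul_assoc, ← mul_assoc (tpR C X f), hff', zero_mul, mul_zero]
  have hact : ∀ (n : ℕ) (m : ℤ) (a : H.A X), n < d → a ∈ H.gr X m →
      actH C X H (q n) a = if m = n then a else 0 := by
    intro n m a hn ha
    simp only [q]
    rw [fam_lt hn, map_sub, LinearMap.sub_apply, (hcut _ (by omega)).act m a ha,
      (hcut _ (by omega)).act m a ha]
    by_cases h3 : m < ((d - (d - n) : ℕ) : ℤ)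
    · rw [if_pos (by omega), if_pos h3, if_neg (by omega), sub_self]
    · rw [if_neg h3, sub_zero]
      congr 1
      apply propext
      constructor
      · intro h4; omega
      · intro h4; omega
  have hact' : ∀ (n : ℕ) (m : ℤ) (a : H.A X), n < d → a ∈ H.gr X m →
      actH C X H (tpR C X (q n)) a = if m = (2 * d - n : ℕ) then a else 0 := by
    intro n m a hn ha
    simp only [q]
    rw [fam_lt hn, map_sub, map_sub, LinearMap.sub_apply, actH_tpR (hcut _ (by omega)) m a ha,
      actH_tpR (hcut _ (by omega)) m a ha, ← hd]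
    by_cases h3 : 2 * (d : ℤ) - ((d - (d - n) : ℕ) : ℤ) < m
    · rw [if_pos (by omega), if_pos h3, if_neg (by omega), sub_self]
    · rw [if_neg h3, sub_zero]
      congr 1
      apply propext
      constructor
      · intro h4; omega
      · intro h4; omega
  obtain ⟨π, hπ, hsd, hπq⟩ := selfDual_of_half' q hqm hqout hqq h1 h2 hact hact'
  refine ⟨π, hπ, hsd, ?_⟩
  have htp : ∀ n ≤ 2 * d, tpR C X (π n) = π (2 * d - n) := hsd
  -- the lower half of `π` is triangular
  have hE : TI (cor0 C X) (ct π d) := by
    have e1 : ct π d = ∑ j ∈ Finset.range d, q j := by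
      unfold ct
      exact Finset.sum_congr rfl fun j hj => hπq j (Finset.mem_range.1 hj)
    rw [e1]
    by_cases hd0 : d = 0
    · rw [hd0, Finset.range_zero, Finset.sum_empty]
      exact TI.zero
    · simp only [q]
      rw [fam_sum (by simp [c, ct]) (by omega) le_rfl, Nat.sub_self]
      exact hfT
  have key : ∀ g ∈ cor0 C X, ∀ a b : ℕ, a < d → a < b → π b * g * π a = 0 := by
    intro g hg a b ha hab
    by_cases hb : b < d
    · rw [hπq a ha, hπq b hb]
      exact fam_NR hfT hc hg hab
    · have e1 := (ct_mul hπ ha).1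
      have e2 := (ct_mul_zero hπ (show d ≤ b by omega)).2
      have e3 := hE.eq hg
      calc π b * g * π a = π b * (g * ct π d) * π a := by
            rw [mul_assoc, mul_assoc, mul_assoc, e1]
        _ = (π b * ct π d) * g * ct π d * π a := by rw [e3]; simp only [mul_assoc]
        _ = 0 := by rw [e2, zero_mul, zero_mul, zero_mul]
  intro g hg a b hab
  by_cases ha : a < d
  · exact key g hg a b ha hab
  by_cases hb : 2 * d < b
  · have : π b = 0 := hπ.out b hb
    rw [this, zero_mul, zero_mul]
  have e1 := key (tpR C X g) (tpR_mem hg) (2 * d - b) (2 * d - a) (by omega) (by omega)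
  have e2 := congrArg (tpR C X) e1
  rw [tpR_mul, tpR_mul, tpR_tpR, map_zero, htp _ (by omega), htp _ (by omega),
    show 2 * d - (2 * d - b) = b by omega, show 2 * d - (2 * d - a) = a by omega,
    ← mul_assoc] at e2
  exact e2

/-- Every lower half of a decomposition which does not raise weights is triangular. -/
lemma triangular_of_NR {P : ℕ → Cor C X} (h : IsCK H X P) (hN : NR P P) :
    ∃ e : C.A (X.prod X), IsHalf H X e ∧ Triangular C X e :=
  ⟨_, half_of_ck h, triangular_of_TI (H := H) (e := uc (ct P X.dim)) (ct_TI h hN X.dim)⟩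

end Pool.Agent.Q69.Cut
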