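import Pool.Agent.Q69.Cut.MainC
import Pool.Agent.Q69.Murre.Zero

/-!
# Murre's conjecture (B) and one cut for every variety
-/

open CategoryTheory AlgebraicGeometry

set_option autoImplicit false
set_option linter.all false

universe u v w

namespace Pool.Agent.Q69.Cut

open Pool.Agent.H914 Pool.Agent.H914.VarClass Pool.Agent.H914.VarClass.Obj Pool.Agent.W492.BB
  Pool.Agent.W550.Corr Pool.Agent.TH133 Pool.Agent.Q69.Murre

/-- The correspondence `e` acts as zero on the zero-cycles of `X`. -/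
def KillsZeroCycles {k : Type u} [Field k] {𝒱 : VarClass k} (C : TheoryData.{u, v, 0} 𝒱 ℚ)
    (X : 𝒱.Obj) (e : C.A (X.prod X)) : Prop :=
  ∀ x : C.A X, C.Deg X.dim x → C.act e x = 0

variable {k : Type u} [Field k] {𝒱 : VarClass k} {C : TheoryData.{u, v, 0} 𝒱 ℚ}
  {K : Type w} [Field K] {H : WeilTheoryData.{u, v, w} C K} {X Y Z W : 𝒱.Obj}

lemma murreC_tfae23 [hC : IsChowProj C] [hH : IsWeilProj H]
    (h : (∃ e : C.A (X.prod X), IsHalf H X e) ∧
        ∀ e e' : C.A (X.prod X), IsHalf H X e → IsHalf H X e' → C.comp e' e = e')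
    {e : C.A (X.prod X)} (he : IsHalf H X e) : Triangular C X e ∧ NoPhantom H X := by
  have hU' : CutUnique H X X.dim := fun e e' he he' =>
    h.2 e e' (half_iff.2 he) (half_iff.2 he')
  exact ⟨triangular_of_TI (H := H) (TI_of_unique hU' (half_iff.1 he)),
    noPh_iff.2 (noPh_of_unique hU' (half_iff.1 he))⟩

/-- The lower half of every decomposition kills the zero-cycles if one lower half does. -/
lemma zero_of_half [hC : IsChowProj C] [hH : IsWeilProj H] (hPh : NoPh H X) {P : ℕ → Cor C X}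
    (h : IsCK H X P) (hN : NR P P) {e : C.A (X.prod X)} (he : IsHalf H X e)
    (h0 : KillsZeroCycles C X e) : ckFil C (fun i => uc (P i)) X.dim (X.dim + 1) = ⊥ := by
  obtain ⟨-, e2⟩ := eq_of_noPh hPh (ct_TI h hN X.dim) (ct_cut h X.dim) (half_iff.1 he)
  have e1 : ∑ j ∈ Finset.range (2 * X.dim + 1 - (X.dim + 1)), uc (P j) = uc (ct P X.dim) := by
    rw [show 2 * X.dim + 1 - (X.dim + 1) = X.dim by omega]
    rfl
  unfold ckFil
  rw [e1, eq_bot_iff]
  rintro _ ⟨x, hx, rfl⟩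
  rw [Submodule.mem_bot]
  have hx' : x ∈ C.gr X X.dim := hx
  have h3 : C.act (uc (ct P X.dim)) x ∈ C.gr X X.dim := act_mem0 C (ct_mem h X.dim) hx'
  have h4 : C.act (uc (ct P X.dim)) x = C.act e (C.act (uc (ct P X.dim)) x) := by
    rw [← C.act_comp]
    have : C.comp (uc (ct P X.dim)) e = uc (ct P X.dim) := e2
    rw [this]
  change C.act (uc (ct P X.dim)) x = 0
  rw [h4]
  exact h0 _ h3

theorem murreB_tfae (C : TheoryData.{u, v, 0} 𝒱 ℚ) [hC : IsChowComplex C] {K : Type w} [Field K]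
    (H : WeilTheoryData.{u, v, w} C K) [hH : IsWeilProj H] :
    [(∀ X : 𝒱.Obj, ∃ π : ℕ → C.A (X.prod X), IsCK H X π) ∧
        ∀ X : 𝒱.Obj, MurreB0 H X ∧ MurreB1 H X,
      ∀ X : 𝒱.Obj, (∃ e : C.A (X.prod X), IsHalf H X e ∧ KillsZeroCycles C X e) ∧
        ∀ e e' : C.A (X.prod X), IsHalf H X e → IsHalf H X e' → C.comp e' e = e',
      ∀ X : 𝒱.Obj, (∃ e : C.A (X.prod X), IsHalf H X e ∧ Triangular C X e ∧
        KillsZeroCycles C X e) ∧ NoPhantom H X].TFAE := by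
  tfae_have 1 → 2 := by
    rintro ⟨hA, hB⟩ X
    have hCC : ∀ X : 𝒱.Obj, MurreC H X := fun X => murreC_of_B0 X (hB (X.prod X)).1
    have h3 : ((∀ X : 𝒱.Obj, ∃ π : ℕ → C.A (X.prod X), IsCK H X π) ∧ ∀ X : 𝒱.Obj, MurreC H X) ↔
      ∀ X : 𝒱.Obj, (∃ e : C.A (X.prod X), IsHalf H X e) ∧
        ∀ e e' : C.A (X.prod X), IsHalf H X e → IsHalf H X e' → C.comp e' e = e' :=
      (murreC_tfae C H).out 0 1
    have h2 := h3.1 ⟨hA, hCC⟩ X
    refine ⟨?_, h2.2⟩
    obtain ⟨π, hπ⟩ := hA X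
    let P : ℕ → Cor C X := π
    have hP : IsCK H X P := hπ
    refine ⟨_, half_of_ck hP, fun x hx => ?_⟩
    change C.act (∑ i ∈ Finset.range X.dim, π i) x = 0
    rw [act_sum]
    apply Finset.sum_eq_zero
    intro j hj
    exact zero_of_ckFil hπ ((hB X).2 π hπ X.dim) j (Finset.mem_range.1 hj) x hx
  tfae_have 2 → 3 := by
    intro h X
    obtain ⟨⟨e, he, h0⟩, hU⟩ := h X
    obtain ⟨h1, h2⟩ := murreC_tfae23 ⟨⟨e, he⟩, hU⟩ he
    exact ⟨⟨e, he, h1, h0⟩, h2⟩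
  tfae_have 3 → 1 := by
    intro h
    obtain ⟨hA, hX⟩ := C_of_triangular (H := H) (fun X => by
      obtain ⟨e, h1, h2, _⟩ := (h X).1
      exact ⟨e, h1, h2⟩) (fun X => (h X).2)
    have hB0 : ∀ X : 𝒱.Obj, MurreB0 H X := fun X =>
      murreB0_of_NR' fun π hπ => (hX X).2 _ _ (isCK_cr hπ) (isCK_cr hπ)
    refine (murreB_iff C H).2 ⟨fun X π π' hπ hπ' => hB0 (X.prod X) _ (hπ.dual.prod hπ') X.dim,
      fun X => ?_⟩
    obtain ⟨π, hπ⟩ := hA X
    obtain ⟨⟨e, he, -, h0⟩, hPh⟩ := h X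
    exact ⟨π, hπ, zero_of_half (noPh_iff.1 hPh) (isCK_cr hπ)
      ((hX X).2 _ _ (isCK_cr hπ) (isCK_cr hπ)) he h0⟩
  tfae_finish

end Pool.Agent.Q69.Cut
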