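import Pool.Agent.Q69.Cut.Block

/-!
# One cut for every variety
-/

open CategoryTheory AlgebraicGeometry

set_option autoImplicit false
set_option linter.all false

universe u v w

namespace Pool.Agent.Q69.Cut

open Pool.Agent.H914 Pool.Agent.H914.VarClass Pool.Agent.H914.VarClass.Obj Pool.Agent.W492.BB
  Pool.Agent.W550.Corr Pool.Agent.TH133 Pool.Agent.Q69.Murre

variable {k : Type u} [Field k] {𝒱 : VarClass k} {C : TheoryData.{u, v, 0} 𝒱 ℚ}
  [hC : IsChowProj C] {K : Type w} [Field K]
  {H : WeilTheoryData.{u, v, w} C K} [hH : IsWeilProj H] {X Y Z W : 𝒱.Obj}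

/-- Homologically trivial idempotents vanish. -/
def NoPh (H : WeilTheoryData.{u, v, w} C K) (X : 𝒱.Obj) : Prop :=
  ∀ q : Cor C X, HT H q → q * q = q → q = 0

/-- Any two cuts of level `j` have the same image. -/
def CutUnique (H : WeilTheoryData.{u, v, w} C K) [IsWeilProj H] (X : 𝒱.Obj) (j : ℤ) : Prop :=
  ∀ e e' : Cor C X, CutR H j e → CutR H j e' → e * e' = e'

include hC hH

lemma CutR.add_HT {e x : Cor C X} {j : ℤ} (he : CutR H j e) (hx : HT H x)
    (hi : (e + x) * (e + x) = e + x) : CutR H j (e + x) := by
  refine ⟨(cor0 C X).add_mem he.mem hx.mem, hi, fun m a ha => ?_⟩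
  rw [map_add, LinearMap.add_apply, he.act m a ha, hx.act, LinearMap.zero_apply, add_zero]

/-- The components of a correspondence beyond a cut are homologically trivial. -/
lemma HT_beyond {e g : Cor C X} {j : ℤ} (he : CutR H j e) (hg : g ∈ cor0 C X) :
    HT H ((1 - e) * g * e) := by
  refine HT.of ((cor0 C X).mul_mem ((cor0 C X).mul_mem ((cor0 C X).sub_mem (cor0 C X).one_mem
    he.mem) hg) he.mem) ?_
  apply ext_gr H
  intro m a ha
  rw [LinearMap.zero_apply, map_mul, map_mul, Module.End.mul_apply, Module.End.mul_apply,
    he.act m a ha]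
  split_ifs with hm
  · rw [map_sub, map_one, LinearMap.sub_apply, he.act m _ (actH_mem0 hg ha), if_pos hm]
    exact sub_self _
  · rw [map_zero, map_zero]

lemma TI_of_unique {j : ℤ} (hU : CutUnique H X j) {e : Cor C X} (he : CutR H j e) :
    TI (cor0 C X) e := by
  refine ⟨he.mem, he.idem, fun g hg => ?_⟩
  set x := (1 - e) * g * e with hx
  have hex : e * x = 0 := by
    rw [hx, mul_assoc (1 - e), ← mul_assoc e, mul_sub, mul_one, he.idem, sub_self, zero_mul]
  have hxe : x * e = x := by rw [hx, mul_assoc, he.idem]
  have hxx : x * x = 0 := by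
    nth_rw 1 [← hxe]
    rw [mul_assoc, hex, mul_zero]
  have h1 : (e + x) * (e + x) = e + x := by
    rw [mul_add, add_mul, add_mul, he.idem, hex, hxe, hxx, add_zero, add_zero]
  have h2 := hU e (e + x) he (he.add_HT (HT_beyond he hg) h1)
  rw [mul_add, he.idem, hex, add_zero] at h2
  exact (add_eq_left.1 h2.symm)

lemma noPh_of_unique {j : ℤ} (hU : CutUnique H X j) {e : Cor C X} (he : CutR H j e) :
    NoPh H X := by
  intro q hq hqq
  have hT := TI_of_unique hU he
  have hqe : q * e = e * q * e := hT.eq hq.mem
  -- the lower block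
  have hL : e * q * e = 0 := by
    set y := e * q * e with hy
    have hyy : y * y = y := by
      calc y * y = e * q * (e * e) * q * e := by simp only [hy, mul_assoc]
        _ = e * q * (e * q * e) := by rw [he.idem]; simp only [mul_assoc]
        _ = e * (q * q) * e := by rw [← hy, ← hqe]; simp only [mul_assoc]
        _ = y := by rw [hqq]
    have hey : e * y = y := by rw [hy, ← mul_assoc, ← mul_assoc, he.idem]
    have hye : y * e = y := by rw [hy, mul_assoc, he.idem]
    have hyH : HT H y := (hq.mul_left he.mem).mul_right he.mem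
    have h1 : (e + -y) * (e + -y) = e + -y := by
      rw [mul_add, add_mul, add_mul, he.idem, neg_mul, mul_neg, neg_mul_neg, hey, hye, hyy]
      abel
    have h2 := hU (e + -y) e (he.add_HT hyH.neg h1) he
    rw [add_mul, he.idem, neg_mul, hye] at h2
    exact neg_eq_zero.1 (add_eq_left.1 h2)
  have hqe0 : q * e = 0 := by rw [hqe, hL]
  -- the upper block
  have hU' : (1 - e) * q * (1 - e) = 0 := by
    have e1 : q * (1 - e) = q := by rw [mul_sub, mul_one, hqe0, sub_zero]
    set y := (1 - e) * q with hy
    have hye : y * e = 0 := by rw [hy, mul_assoc, hqe0, mul_zero]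
    have hey : e * y = 0 := by rw [hy, ← mul_assoc, mul_sub, mul_one, he.idem, sub_self, zero_mul]
    have hyy : y * y = y := by
      calc y * y = (1 - e) * (q * (1 - e)) * q := by simp only [hy, mul_assoc]
        _ = (1 - e) * (q * q) := by rw [e1, mul_assoc]
        _ = y := by rw [hqq]
    have hyH : HT H y := hq.mul_left ((cor0 C X).sub_mem (cor0 C X).one_mem he.mem)
    have h1 : (e + y) * (e + y) = e + y := by
      rw [mul_add, add_mul, add_mul, he.idem, hey, hye, hyy]
      abel
    have h2 := hU e (e + y) he (he.add_HT hyH h1)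
    rw [mul_add, he.idem, hey, add_zero] at h2
    rw [mul_assoc, e1]
    exact add_eq_left.1 h2.symm
  have h3 : q = e * q := by
    have h4 : (1 - e) * q * (1 - e) = q - e * q - (q * e - e * q * e) := by
      rw [sub_mul, one_mul, mul_sub, mul_one, sub_mul]
    rw [h4, hL, hqe0, sub_zero, sub_zero, sub_eq_zero] at hU'
    exact hU'
  have h5 : q * q = (q * e) * q := by
    nth_rw 2 [h3]
    rw [mul_assoc]
  rw [← hqq, h5, hqe0, zero_mul]

/-- Without phantoms a triangular cut has the same image as any other cut of the same level. -/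
lemma eq_of_noPh (hN : NoPh H X) {c e : Cor C X} {j : ℤ} (hT : TI (cor0 C X) c)
    (hc : CutR H j c) (he : CutR H j e) : c * e = e ∧ e * c = c := by
  have h0 : e * c = c * e * c := hT.eq he.mem
  have h1m : (1 - c) ∈ cor0 C X := (cor0 C X).sub_mem (cor0 C X).one_mem hc.mem
  have hcc : (1 - c) * (1 - c) = 1 - c := by
    rw [mul_sub, mul_one, sub_mul, one_mul, hc.idem, sub_self, sub_zero]
  have h00 : (1 - c) * e * c = 0 := hT.tri e he.mem
  constructor
  · have h1 : (1 - c) * e * (1 - c) = 0 := by
      apply hN
      · refine HT.of ((cor0 C X).mul_mem ((cor0 C X).mul_mem h1m he.mem) h1m) ?_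
        apply ext_gr H
        intro m a ha
        have e1 : actH C X H (1 - c) a = if m < j then 0 else a := by
          rw [map_sub, map_one, LinearMap.sub_apply, hc.act m a ha]
          split_ifs
          · exact sub_self _
          · exact sub_zero _
        rw [map_mul, map_mul, Module.End.mul_apply, Module.End.mul_apply, e1,
          LinearMap.zero_apply]
        split_ifs with hm
        · rw [map_zero, map_zero]
        · rw [he.act m a ha, if_neg hm, map_zero]
      · calc (1 - c) * e * (1 - c) * ((1 - c) * e * (1 - c)) =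
            (1 - c) * e * ((1 - c) * (1 - c)) * (e * (1 - c)) := by simp only [mul_assoc]
          _ = (1 - c) * e * (1 - c) * (e * (1 - c)) := by rw [hcc]
          _ = (1 - c) * (e * e) * (1 - c) - (1 - c) * e * c * (e * (1 - c)) := by noncomm_ring
          _ = _ := by rw [he.idem, h00, zero_mul, sub_zero]
    have h2 : (1 - c) * e = 0 := by
      have h3 : (1 - c) * e = (1 - c) * e * c + (1 - c) * e * (1 - c) := by
        rw [mul_sub, mul_one]; abel
      rw [h3, h00, h1, add_zero]
    rw [sub_mul, one_mul, sub_eq_zero] at h2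
    exact h2.symm
  · have h1 : c * (1 - e) * c = 0 := by
      apply hN
      · have h1e : (1 - e) ∈ cor0 C X := (cor0 C X).sub_mem (cor0 C X).one_mem he.mem
        refine HT.of ((cor0 C X).mul_mem ((cor0 C X).mul_mem hc.mem h1e) hc.mem) ?_
        apply ext_gr H
        intro m a ha
        rw [map_mul, map_mul, Module.End.mul_apply, Module.End.mul_apply, hc.act m a ha,
          LinearMap.zero_apply]
        split_ifs with hm
        · rw [map_sub, map_one, LinearMap.sub_apply, he.act m a ha, if_pos hm]
          change actH C X H c (a - a) = 0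
          rw [sub_self, map_zero]
        · rw [map_zero, map_zero]
      · have h4 : (1 - e) * c = c * (1 - e) * c := hT.eq ((cor0 C X).sub_mem (cor0 C X).one_mem
          he.mem)
        have hee : (1 - e) * (1 - e) = 1 - e := by
          rw [mul_sub, mul_one, sub_mul, one_mul, he.idem, sub_self, sub_zero]
        calc c * (1 - e) * c * (c * (1 - e) * c) = c * (1 - e) * (c * c) * (1 - e) * c := by
              simp only [mul_assoc]
          _ = c * (1 - e) * (c * (1 - e) * c) := by rw [hc.idem]; simp only [mul_assoc]
          _ = c * ((1 - e) * (1 - e)) * c := by rw [← h4]; simp only [mul_assoc]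
          _ = _ := by rw [hee]
    rw [h0]
    have h5 : c * (1 - e) * c = c - c * e * c := by
      rw [mul_sub, mul_one, sub_mul, hc.idem]
    rw [h5, sub_eq_zero] at h1
    exact h1.symm

/-! ### The cuts of a Chow-Kunneth decomposition -/

/-- The cut of level `j` of a decomposition. -/
noncomputable def ct (P : ℕ → Cor C X) (j : ℕ) : Cor C X := ∑ i ∈ Finset.range j, P i

lemma ct_mul {P : ℕ → Cor C X} (h : IsCK H X P) {a j : ℕ} (ha : a < j) :
    ct P j * P a = P a ∧ P a * ct P j = P a := by
  unfold ct
  rw [Finset.sum_mul, Finset.mul_sum]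
  constructor
  · rw [Finset.sum_eq_single a, h.mul_eq, if_pos rfl]
    · intro b _ hb
      rw [h.mul_eq, if_neg hb]
    · intro h1
      exact absurd (Finset.mem_range.2 ha) h1
  · rw [Finset.sum_eq_single a, h.mul_eq, if_pos rfl]
    · intro b _ hb
      rw [h.mul_eq, if_neg (Ne.symm hb)]
    · intro h1
      exact absurd (Finset.mem_range.2 ha) h1

lemma ct_mul_zero {P : ℕ → Cor C X} (h : IsCK H X P) {a j : ℕ} (ha : j ≤ a) :
    ct P j * P a = 0 ∧ P a * ct P j = 0 := by
  unfold ct
  rw [Finset.sum_mul, Finset.mul_sum]
  constructor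
  · apply Finset.sum_eq_zero
    intro b hb
    rw [Finset.mem_range] at hb
    rw [h.mul_eq, if_neg (by omega)]
  · apply Finset.sum_eq_zero
    intro b hb
    rw [Finset.mem_range] at hb
    rw [h.mul_eq, if_neg (by omega)]

lemma ct_mem {P : ℕ → Cor C X} (h : IsCK H X P) (j : ℕ) : ct P j ∈ cor0 C X :=
  (cor0 C X).sum_mem fun i _ => ck_mem h i

lemma ct_idem {P : ℕ → Cor C X} (h : IsCK H X P) (j : ℕ) : ct P j * ct P j = ct P j := by
  have h1 : ct P j * ct P j = ∑ i ∈ Finset.range j, ct P j * P i := by
    conv_lhs => rw [show ct P j * ct P j = ct P j * ∑ i ∈ Finset.range j, P i from rfl]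
    rw [Finset.mul_sum]
  rw [h1]
  exact Finset.sum_congr rfl fun i hi => (ct_mul h (Finset.mem_range.1 hi)).1

lemma ct_cut {P : ℕ → Cor C X} (h : IsCK H X P) (j : ℕ) : CutR H j (ct P j) := by
  refine ⟨ct_mem h j, ct_idem h j, fun m a ha => ?_⟩
  unfold ct
  rw [map_sum, LinearMap.sum_apply]
  by_cases hm : m < j
  · rw [if_pos hm]
    by_cases ha0 : a = 0
    · subst ha0
      simp
    · obtain ⟨m, rfl⟩ := Int.eq_ofNat_of_zero_le (nonneg_of_mem H ha ha0)
      rw [Finset.sum_eq_single m]
      · rw [h.actH_eq' m m ha, if_pos rfl]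
      · intro b _ hb
        rw [h.actH_eq' b m ha, if_neg (by exact_mod_cast hb.symm)]
      · intro h1
        exact absurd (Finset.mem_range.2 (by omega)) h1
  · rw [if_neg hm]
    apply Finset.sum_eq_zero
    intro b hb
    rw [Finset.mem_range] at hb
    rw [h.actH_eq' b m ha, if_neg (by omega)]

lemma ct_TI {P : ℕ → Cor C X} (h : IsCK H X P) (hN : NR P P) (j : ℕ) : TI (cor0 C X) (ct P j) := by
  refine ⟨ct_mem h j, ct_idem h j, fun g hg => ?_⟩
  have h1 : (1 : Cor C X) - ct P j = ∑ b ∈ (Finset.range (2 * X.dim + 1)).filter (fun b => j ≤ b),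
      P b := by
    rw [← h.sum_eq, ct, sub_eq_iff_eq_add]
    by_cases hj : j ≤ 2 * X.dim + 1
    · rw [← Finset.sum_filter_add_sum_filter_not (Finset.range (2 * X.dim + 1)) (fun b => j ≤ b)]
      congr 1
      apply Finset.sum_congr _ fun _ _ => rfl
      ext b
      simp only [Finset.mem_filter, Finset.mem_range]
      omega
    · rw [Finset.filter_false_of_mem, Finset.sum_empty, zero_add]
      · apply Finset.sum_subset
        · intro b hb
          rw [Finset.mem_range] at *
          omega
        · intro b _ hb
          rw [Finset.mem_range] at hb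
          exact h.out b (by omega)
      · intro b hb
        rw [Finset.mem_range] at hb
        omega
  rw [h1, Finset.sum_mul, Finset.sum_mul]
  apply Finset.sum_eq_zero
  intro b hb
  rw [Finset.mem_filter] at hb
  unfold ct
  rw [Finset.mul_sum]
  apply Finset.sum_eq_zero
  intro a ha
  rw [Finset.mem_range] at ha
  exact hN g hg a b (by omega)

/-- Without phantoms all decompositions do not raise weights if one does not. -/
lemma NR_all (hPh : NoPh H X) {P P' P'' : ℕ → Cor C X} (h : IsCK H X P) (hN : NR P P)
    (h' : IsCK H X P') (h'' : IsCK H X P'') : NR P' P'' := by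
  intro g hg a b hab
  have hT := ct_TI h hN (a + 1)
  obtain ⟨e1, -⟩ := eq_of_noPh hPh hT (ct_cut h (a + 1)) (ct_cut h' (a + 1))
  obtain ⟨-, e2⟩ := eq_of_noPh hPh hT (ct_cut h (a + 1)) (ct_cut h'' (a + 1))
  have e3 := (ct_mul h' (Nat.lt_succ_self a)).1
  have e4 := (ct_mul_zero h'' (show a + 1 ≤ b by omega)).2
  have e5 := hT.eq hg
  have e1' : ct P' (a + 1) * P' a = ct P (a + 1) * (ct P' (a + 1) * P' a) := by
    rw [← mul_assoc, e1]
  calc P'' b * g * P' a = P'' b * g * (ct P' (a + 1) * P' a) := by rw [e3]
    _ = P'' b * g * (ct P (a + 1) * (ct P' (a + 1) * P' a)) := by rw [← e1']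
    _ = P'' b * (g * ct P (a + 1)) * ct P' (a + 1) * P' a := by
        simp only [mul_assoc]
    _ = P'' b * (ct P (a + 1) * g * ct P (a + 1)) * ct P' (a + 1) * P' a := by rw [← e5]
    _ = (P'' b * ct P'' (a + 1)) * ct P (a + 1) * g * ct P (a + 1) * ct P' (a + 1) * P' a := by
        nth_rw 1 [← e2]; simp only [mul_assoc]
    _ = 0 := by rw [e4]; simp only [zero_mul]

/-- If decompositions do not raise weights there are no phantoms. -/
lemma noPh_of_NR (hN : ∀ P P' : ℕ → Cor C X, IsCK H X P → IsCK H X P' → NR P P')
    {P : ℕ → Cor C X} (h : IsCK H X P) : NoPh H X := by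
  intro q hq hqq
  by_cases hd : X.dim = 0
  · have h1 : (uc q) ∈ C.gr (X.prod X) 0 := by
      have := hq.mem
      rw [mem_cor0, hd] at this
      exact_mod_cast this
    obtain ⟨r, hr⟩ := hC.gr_zero (X.prod X) (uc q) h1
    by_cases hr0 : r = 0
    · rw [hr0, zero_smul] at hr
      exact hr
    · exfalso
      have h2 : H.cl (r • (1 : C.A (X.prod X))) = 0 := by
        rw [← hr]; exact hq.2
      have h3 : (1 : C.A (X.prod X)) = (r⁻¹ • (1 : C.A (X.prod X))) * (r • (1 : C.A (X.prod X))) := by
        rw [smul_mul_smul_comm, inv_mul_cancel₀ hr0, one_smul, one_mul]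
      apply hH.one_ne_zero (X.prod X)
      rw [← map_one H.cl, h3, map_mul, h2, mul_zero]
  -- the diagonal blocks vanish
  have hdiag : ∀ a, P a * q * P a = 0 := by
    intro a
    by_cases ha : 2 * X.dim < a
    · have : P a = 0 := h.out a ha
      rw [this, mul_zero]
    set y := P a * q * P a with hy
    have hPy : P a * y = y := by rw [hy, ← mul_assoc, ← mul_assoc, ck_idem h]
    have hyP : y * P a = y := by rw [hy, mul_assoc, ck_idem h]
    have hPy' : ∀ i, i ≠ a → P i * y = 0 := by
      intro i hi
      rw [hy, ← mul_assoc, ← mul_assoc, ck_orth h hi, zero_mul, zero_mul]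
    have hyP' : ∀ i, i ≠ a → y * P i = 0 := by
      intro i hi
      rw [hy, mul_assoc, ck_orth h (Ne.symm hi), mul_zero]
    have hyy : y * y = y := by
      have h1 : P a * q * P a * (q * P a) = P a * q * (q * P a) := by
        have h2 : P a * q * (q * P a) = ∑ c ∈ Finset.range (2 * X.dim + 1),
            P a * q * P c * (q * P a) := by
          conv_lhs => rw [← mul_one (P a * q), ← h.sum_eq, Finset.mul_sum, Finset.sum_mul]
        rw [h2, Finset.sum_eq_single a]
        · intro c _ hc
          rcases lt_or_gt_of_ne hc with h3 | h3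
          · rw [hN P P h h q hq.mem c a h3, zero_mul]
          · rw [mul_assoc (P a * q), ← mul_assoc (P c) q, hN P P h h q hq.mem a c h3, mul_zero]
        · intro h3
          rw [Finset.mem_range] at h3
          omega
      calc y * y = P a * q * (P a * P a) * (q * P a) := by simp only [hy, mul_assoc]
        _ = P a * q * (q * P a) := by rw [ck_idem h, h1]
        _ = P a * (q * q) * P a := by simp only [mul_assoc]
        _ = y := by rw [hqq]
    have hyH : HT H y := (hq.mul_left (ck_mem h a)).mul_right (ck_mem h a)
    obtain ⟨c, hc, hc2⟩ : ∃ c, c ≠ a ∧ c ≤ 2 * X.dim := by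
      by_cases h1 : a = 0
      · exact ⟨1, by omega, by omega⟩
      · exact ⟨0, by omega, by omega⟩
    let P' : ℕ → Cor C X := fun i => if i = a then P a - y else if i = c then P c + y else P i
    have Pa : P' a = P a - y := by simp [P']
    have Pc : P' c = P c + y := by simp [P', hc]
    have Pi : ∀ i, i ≠ a → i ≠ c → P' i = P i := fun i h1 h2 => by simp [P', h1, h2]
    have hPc : ∀ i, i ≠ c → P i * P c = 0 := fun i h1 => ck_orth h h1
    have hcP : ∀ i, i ≠ c → P c * P i = 0 := fun i h1 => ck_orth h (Ne.symm h1)
    have hPa : ∀ i, i ≠ a → P i * P a = 0 := fun i h1 => ck_orth h h1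
    have haP : ∀ i, i ≠ a → P a * P i = 0 := fun i h1 => ck_orth h (Ne.symm h1)
    have h' : IsCK H X P' := by
      apply isCK_of
      · intro i
        by_cases h1 : i = a
        · rw [h1, Pa]; exact (cor0 C X).sub_mem (ck_mem h a) hyH.mem
        · by_cases h2 : i = c
          · rw [h2, Pc]; exact (cor0 C X).add_mem (ck_mem h c) hyH.mem
          · rw [Pi i h1 h2]; exact ck_mem h i
      · intro i hi
        rw [Pi i (by omega) (by omega)]
        exact h.out i hi
      · intro i j
        by_cases h1 : i = a
        · subst h1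
          rw [Pa]
          by_cases h2 : j = i
          · subst h2
            rw [if_pos rfl, Pa, mul_sub, sub_mul, sub_mul, ck_idem h, hyP, hPy, hyy]
            abel
          · rw [if_neg (Ne.symm h2)]
            by_cases h3 : j = c
            · subst h3
              rw [Pc, mul_add, sub_mul, sub_mul, haP j hc, hyP' j hc, hPy, hyy]
              abel
            · rw [Pi j h2 h3, sub_mul, haP j h2, hyP' j h2, sub_zero]
        · by_cases h2 : i = c
          · subst h2
            rw [Pc]
            by_cases h3 : j = a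
            · subst h3
              rw [if_neg h1, Pa, mul_sub, add_mul, add_mul, hPa i h1, hyP, hPy' i h1, hyy]
              abel
            · by_cases h4 : j = i
              · subst h4
                rw [if_pos rfl, Pc, mul_add, add_mul, add_mul, ck_idem h, hyP' j h1, hPy' j h1, hyy]
                abel
              · rw [if_neg (Ne.symm h4), Pi j h3 h4, add_mul, ck_orth h (Ne.symm h4), hyP' j h3,
                  add_zero]
          · rw [Pi i h1 h2]
            by_cases h3 : j = a
            · subst h3
              rw [if_neg h1, Pa, mul_sub, hPa i h1, hPy' i h1, sub_zero]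
            · by_cases h4 : j = c
              · subst h4
                rw [if_neg h2, Pc, mul_add, hPc i h2, hPy' i h1, add_zero]
              · rw [Pi j h3 h4, h.mul_eq]
      · have e1 : ∀ i, P' i = P i + ((if i = c then y else 0) - (if i = a then y else 0)) := by
          intro i
          by_cases h1 : i = a
          · subst h1
            rw [Pa, if_neg (Ne.symm hc), if_pos rfl]; abel
          · by_cases h2 : i = c
            · subst h2
              rw [Pc, if_pos rfl, if_neg h1]; abel
            · rw [Pi i h1 h2, if_neg h2, if_neg h1]; abel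
        simp_rw [e1]
        rw [Finset.sum_add_distrib, h.sum_eq, Finset.sum_sub_distrib, Finset.sum_ite_eq',
          Finset.sum_ite_eq', if_pos (Finset.mem_range.2 (by omega)),
          if_pos (Finset.mem_range.2 (by omega)), sub_self, add_zero]
      · intro i m x hx
        have hy0 : actH C X H y = 0 := hyH.act
        by_cases h1 : i = a
        · subst h1
          rw [Pa, map_sub, LinearMap.sub_apply, hy0, LinearMap.zero_apply, sub_zero,
            h.actH_eq' i m hx]
        · by_cases h2 : i = c
          · subst h2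
            rw [Pc, map_add, LinearMap.add_apply, hy0, LinearMap.zero_apply, add_zero,
              h.actH_eq' i m hx]
          · rw [Pi i h1 h2, h.actH_eq' i m hx]
    rcases lt_or_gt_of_ne hc with h1 | h1
    · have h2 := hN P' P h' h y hyH.mem c a h1
      rw [Pc, hPy, mul_add, hyP' c hc, hyy, zero_add] at h2
      exact h2
    · have h2 := hN P P' h h' y hyH.mem a c h1
      rw [Pc, add_mul, hPy' c hc, hyy, zero_add, hyP] at h2
      exact h2
  -- all blocks vanish
  have hNP := hN P P h h
  have key : ∀ j, ct P j * q * ct P j = 0 := by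
    intro j
    induction j with
    | zero => unfold ct; simp
    | succ j ih =>
      have e1 : ct P (j + 1) = ct P j + P j := by unfold ct; rw [Finset.sum_range_succ]
      have e2 : P j * q * ct P j = 0 := by
        have h1 := (ct_TI h hNP j).eq hq.mem
        rw [mul_assoc, h1, ← mul_assoc, ← mul_assoc, (ct_mul_zero h le_rfl).2, zero_mul, zero_mul]
      set x := ct P (j + 1) * q * ct P (j + 1) with hx
      have hx1 : x = ct P j * q * P j := by
        rw [hx, e1, add_mul, mul_add, add_mul, add_mul, ih, hdiag, e2]
        abel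
      have hT := ct_TI h hNP (j + 1)
      have hxx : x * x = x := by
        have h1 := hT.eq hq.mem
        calc x * x = ct P (j + 1) * q * (ct P (j + 1) * ct P (j + 1)) * q * ct P (j + 1) := by
              simp only [hx, mul_assoc]
          _ = ct P (j + 1) * q * (ct P (j + 1) * q * ct P (j + 1)) := by
              rw [hT.idem]; simp only [mul_assoc]
          _ = ct P (j + 1) * (q * q) * ct P (j + 1) := by rw [← h1]; simp only [mul_assoc]
          _ = x := by rw [hqq]
      have hx0 : x * x = 0 := by
        rw [hx1]
        have h1 : P j * ct P j = 0 := (ct_mul_zero h le_rfl).2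
        calc ct P j * q * P j * (ct P j * q * P j) = ct P j * q * (P j * ct P j) * q * P j := by
              simp only [mul_assoc]
          _ = 0 := by rw [h1]; simp only [mul_zero, zero_mul]
      rw [← hxx, hx0]
  have h1 := key (2 * X.dim + 1)
  have h2 : ct P (2 * X.dim + 1) = 1 := h.sum_eq
  rw [h2, one_mul, mul_one] at h1
  exact h1

end Pool.Agent.Q69.Cut
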