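import Pool.Agent.Q69.Cut.Defs
import Pool.Agent.Q69.Cut.Thm

/-!
# Murre's conjecture (C) and one cut for every variety
-/

open CategoryTheory AlgebraicGeometry

set_option autoImplicit false
set_option linter.all false

universe u v w

namespace Pool.Agent.Q69.Cut

open Pool.Agent.H914 Pool.Agent.H914.VarClass Pool.Agent.H914.VarClass.Obj Pool.Agent.W492.BB
  Pool.Agent.W550.Corr Pool.Agent.TH133 Pool.Agent.Q69.Murre

variable {k : Type u} [Field k] {𝒱 : VarClass k} {C : TheoryData.{u, v, 0} 𝒱 ℚ}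
  [hC : IsChowProj C] {K : Type w} [Field K]
  {H : WeilTheoryData.{u, v, w} C K} [hH : IsWeilProj H] {X Y Z W : 𝒱.Obj}

include hC hH

lemma half_iff {e : C.A (X.prod X)} : IsHalf H X e ↔ CutR H X.dim (cr e) := by
  constructor
  · intro h
    refine ⟨h.deg, h.idem, fun m a ha => ?_⟩
    by_cases hm : m < X.dim
    · rw [if_pos hm]
      exact h.act_lt m a hm ha
    · rw [if_neg hm]
      exact h.act_ge m a (by omega) ha
  · intro h
    refine ⟨h.mem, h.idem, fun m a hm ha => ?_, fun m a hm ha => ?_⟩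
    · have := h.act m a ha
      rw [if_pos hm] at this
      exact this
    · have := h.act m a ha
      rw [if_neg (by omega)] at this
      exact this

lemma TI_of_triangular {e : C.A (X.prod X)} (h : IsHalf H X e) (ht : Triangular C X e) :
    TI (cor0 C X) (cr e) := by
  refine ⟨h.deg, h.idem, fun g hg => ?_⟩
  have h1 := ht (uc g) hg
  rw [mul_assoc]
  exact h1

lemma triangular_of_TI {e : C.A (X.prod X)} (ht : TI (cor0 C X) (cr e)) : Triangular C X e := by
  intro g hg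
  have h1 := ht.tri (cr g) hg
  rw [mul_assoc] at h1
  exact h1

lemma noPh_iff : NoPhantom H X ↔ NoPh H X := by
  constructor
  · intro h q hq hqq
    exact h q hq.1 hq.2 hqq
  · intro h q h1 h2 h3
    exact h q ⟨h1, h2⟩ h3

lemma cut2 {E : C.A ((X.prod X).prod (X.prod X))} (hE : IsHalf H (X.prod X) E) :
    CutR H (2 * X.dim : ℕ) (cr E) := by
  have h1 := half_iff.1 hE
  have e : ((X.prod X).dim : ℤ) = ((2 * X.dim : ℕ) : ℤ) := by rw [dim_prod]; omega
  rwa [e] at h1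

/-- One triangular half of `X × X` gives a decomposition of `X` not raising weights. -/
theorem exists_NR_of_half {E : C.A ((X.prod X).prod (X.prod X))} (hE : IsHalf H (X.prod X) E)
    (ht : Triangular C (X.prod X) E) : ∃ P : ℕ → Cor C X, IsCK H X P ∧ NR P P := by
  apply exists_NR
  intro j _ hj
  exact exists_cuts X (TI_of_triangular hE ht) (cut2 hE) j hj

lemma half_of_ck {P : ℕ → Cor C X} (h : IsCK H X P) : IsHalf H X (uc (ct P X.dim)) :=
  half_iff.2 (ct_cut h X.dim)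

lemma half_unique (hPh : NoPh H X) {P : ℕ → Cor C X} (h : IsCK H X P) (hN : NR P P)
    {e e' : C.A (X.prod X)} (he : IsHalf H X e) (he' : IsHalf H X e') : C.comp e' e = e' := by
  have hT := ct_TI h hN X.dim
  obtain ⟨e1, e2⟩ := eq_of_noPh hPh hT (ct_cut h X.dim) (half_iff.1 he)
  obtain ⟨e3, e4⟩ := eq_of_noPh hPh hT (ct_cut h X.dim) (half_iff.1 he')
  have : cr e * cr e' = cr e' := by
    rw [← e3, ← mul_assoc, e2]
  exact this

lemma NR_of_C (hX : MurreC H (X.prod X)) {P P' : ℕ → Cor C X} (h : IsCK H X P)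
    (h' : IsCK H X P') : NR P P' :=
  NR_of_murreB0 (murreB0_of_C0 _ fun π π' hπ hπ' i => hX π π' hπ hπ' i 0) h h'

lemma C_of_triangular
    (h1 : ∀ X : 𝒱.Obj, ∃ e : C.A (X.prod X), IsHalf H X e ∧ Triangular C X e)
    (h2 : ∀ X : 𝒱.Obj, NoPhantom H X) :
    (∀ X : 𝒱.Obj, ∃ π : ℕ → C.A (X.prod X), IsCK H X π) ∧
      ∀ X : 𝒱.Obj, MurreC H X ∧ ∀ P P' : ℕ → Cor C X, IsCK H X P → IsCK H X P' → NR P P' := by
  have key : ∀ X : 𝒱.Obj, ∃ P : ℕ → Cor C X, IsCK H X P ∧ NR P P := by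
    intro X
    obtain ⟨E, hE, ht⟩ := h1 (X.prod X)
    exact exists_NR_of_half hE ht
  have key2 : ∀ X : 𝒱.Obj, ∀ P P' : ℕ → Cor C X, IsCK H X P → IsCK H X P' → NR P P' := by
    intro X P P' h h'
    obtain ⟨Q, hQ, hN⟩ := key X
    exact NR_all (noPh_iff.1 (h2 X)) hQ hN h h'
  refine ⟨fun X => ?_, fun X => ⟨murreC_of_NR (key2 X), key2 X⟩⟩
  obtain ⟨P, hP, _⟩ := key X
  exact ⟨P, hP⟩

omit hC hH in
/-- (A) and (C) for all varieties in terms of one cut for every variety. -/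
theorem murreC_tfae (C : TheoryData.{u, v, 0} 𝒱 ℚ) [hC : IsChowProj C] {K : Type w} [Field K]
    (H : WeilTheoryData.{u, v, w} C K) [hH : IsWeilProj H] :
    [(∀ X : 𝒱.Obj, ∃ π : ℕ → C.A (X.prod X), IsCK H X π) ∧ ∀ X : 𝒱.Obj, MurreC H X,
      ∀ X : 𝒱.Obj, (∃ e : C.A (X.prod X), IsHalf H X e) ∧
        ∀ e e' : C.A (X.prod X), IsHalf H X e → IsHalf H X e' → C.comp e' e = e',
      ∀ X : 𝒱.Obj, (∃ e : C.A (X.prod X), IsHalf H X e ∧ Triangular C X e) ∧
        NoPhantom H X].TFAE := by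
  tfae_have 1 → 2 := by
    rintro ⟨hA, hX⟩ X
    obtain ⟨π, hπ⟩ := hA X
    let P : ℕ → Cor C X := π
    have hP : IsCK H X P := hπ
    have hN : ∀ P P' : ℕ → Cor C X, IsCK H X P → IsCK H X P' → NR P P' := fun P P' h h' =>
      NR_of_C (hX (X.prod X)) h h'
    have hPh : NoPh H X := noPh_of_NR hN hP
    exact ⟨⟨_, half_of_ck hP⟩, fun e e' he he' => half_unique hPh hP (hN P P hP hP) he he'⟩
  tfae_have 2 → 3 := by
    intro h X
    obtain ⟨⟨e, he⟩, hU⟩ := h X
    have hU' : CutUnique H X X.dim := fun e e' he he' =>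
      hU e e' (half_iff.2 he) (half_iff.2 he')
    exact ⟨⟨e, he, triangular_of_TI (H := H) (TI_of_unique hU' (half_iff.1 he))⟩,
      noPh_iff.2 (noPh_of_unique hU' (half_iff.1 he))⟩
  tfae_have 3 → 1 := by
    intro h
    obtain ⟨h1, h2⟩ := C_of_triangular (fun X => (h X).1) (fun X => (h X).2)
    exact ⟨h1, fun X => (h2 X).1⟩
  tfae_finish

end Pool.Agent.Q69.Cut
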