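import Pool.Agent.Q69.Cut.MainC

/-!
# Murre's conjecture (D) and one cut for every variety
-/

open CategoryTheory AlgebraicGeometry

set_option autoImplicit false
set_option linter.all false

universe u v w

namespace Pool.Agent.Q69.Cut

open Pool.Agent.H914 Pool.Agent.H914.VarClass Pool.Agent.H914.VarClass.Obj Pool.Agent.W492.BB
  Pool.Agent.W550.Corr Pool.Agent.TH133 Pool.Agent.Q69.Murre

/-- `(1 - e) ∘ γ ∘ (1 - e^t) = 0` for all homologically trivial self-correspondences `γ` of degree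
zero, where `e^t` is the transpose of `e`. -/
def LowersHT {k : Type u} [Field k] {𝒱 : VarClass k} {C : TheoryData.{u, v, 0} 𝒱 ℚ} {K : Type w}
    [Field K] (H : WeilTheoryData.{u, v, w} C K) (X : 𝒱.Obj) (e : C.A (X.prod X)) : Prop :=
  ∀ γ : C.A (X.prod X), C.Deg X.dim γ → H.cl γ = 0 →
    C.comp (C.comp (dg C X - tp C e) γ) (dg C X - e) = 0

variable {k : Type u} [Field k] {𝒱 : VarClass k} {C : TheoryData.{u, v, 0} 𝒱 ℚ}
  [hC : IsChowProj C] {K : Type w} [Field K]
  {H : WeilTheoryData.{u, v, w} C K} [hH : IsWeilProj H] {X Y Z W : 𝒱.Obj}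

/-- The ring version. -/
def LowR (H : WeilTheoryData.{u, v, w} C K) (e : Cor C X) : Prop :=
  ∀ γ : Cor C X, HT H γ → (1 - e) * γ * (1 - tpR C X e) = 0

include hC hH

lemma low_iff {e : C.A (X.prod X)} : LowersHT H X e ↔ LowR H (cr e) := by
  constructor
  · intro h γ hγ
    have h1 := h (uc γ) hγ.1 hγ.2
    rw [mul_assoc]
    exact h1
  · intro h γ h1 h2
    have h3 := h (cr γ) ⟨h1, h2⟩
    rw [mul_assoc] at h3
    exact h3

lemma HT_tp {γ : Cor C X} (h : HT H γ) : HT H (tpR C X γ) := by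
  refine ⟨tpR_mem h.mem, ?_⟩
  change H.cl (tp C (uc γ)) = 0
  rw [cl_tp]
  have h2 : H.cl (uc γ) = 0 := h.2
  rw [h2, tp_zero]

section half

variable {e : Cor C X}

/-- The self-correspondence `e^t e` is homologically trivial. -/
lemma HT_te (he : CutR H X.dim e) : HT H (tpR C X e * e) := by
  refine HT.of ((cor0 C X).mul_mem (tpR_mem he.mem) he.mem) ?_
  apply ext_gr H
  intro m a ha
  rw [LinearMap.zero_apply, map_mul, Module.End.mul_apply, he.act m a ha]
  split_ifs with hm
  · rw [actH_tpR he m a ha, if_neg (by omega)]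
  · rw [map_zero]

lemma HT_et (he : CutR H X.dim e) : HT H (e * tpR C X e) := by
  refine HT.of ((cor0 C X).mul_mem he.mem (tpR_mem he.mem)) ?_
  apply ext_gr H
  intro m a ha
  rw [LinearMap.zero_apply, map_mul, Module.End.mul_apply, actH_tpR he m a ha]
  split_ifs with hm
  · rw [he.act m a ha, if_neg (by omega)]
  · rw [map_zero]

lemma cube (he : CutR H X.dim e) (hL : LowR H e) {s : Cor C X} (hs : s = tpR C X e * e) :
    s * (s * s) = 2 * (s * s) - s := by
  have hQ : tpR C X e * tpR C X e = tpR C X e := by rw [← tpR_mul, he.idem]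
  have h1 := hL _ (HT_te he)
  rw [← hs] at h1
  have hQs : tpR C X e * s = s := by rw [hs, ← mul_assoc, hQ]
  have hse : s * e = s := by rw [hs, mul_assoc, he.idem]
  have h2 : (s - s * s) * (1 - tpR C X e) = 0 := by
    have h3 := congrArg (fun z => tpR C X e * z) h1
    simp only [mul_zero] at h3
    rw [← h3]
    have h4 : tpR C X e * ((1 - e) * s * (1 - tpR C X e)) =
        (tpR C X e * s - (tpR C X e * e) * s) * (1 - tpR C X e) := by noncomm_ring
    rw [h4, hQs, ← hs]
  have h5 : (s - s * s) = (s - s * s) * tpR C X e := by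
    rw [mul_sub, mul_one, sub_eq_zero] at h2
    exact h2
  have h6 : (s - s * s) * e = s - s * s := by rw [sub_mul, hse, mul_assoc, hse]
  have h7 : (s - s * s) = (s - s * s) * s := by
    calc (s - s * s) = (s - s * s) * e := h6.symm
      _ = (s - s * s) * tpR C X e * e := by rw [← h5]
      _ = (s - s * s) * s := by rw [mul_assoc, ← hs]
  have h8 : s - s * s = s * s - s * (s * s) := by
    rw [sub_mul, mul_assoc] at h7
    exact h7
  have h9 : s * (s * s) = s * s - (s - s * s) := by rw [h8]; abel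
  rw [h9]
  noncomm_ring

omit hH in
lemma psi_idem {s : Cor C X} (h3 : s * (s * s) = 2 * (s * s) - s) :
    (2 * s - s * s) * (2 * s - s * s) = 2 * s - s * s := by
  have h4 : s * s * (s * s) = 3 * (s * s) - 2 * s := by
    have : s * s * (s * s) = s * (s * (s * s)) := by rw [mul_assoc]
    rw [this, h3]
    have h5 : s * (2 * (s * s) - s) = 2 * (s * (s * s)) - s * s := by noncomm_ring
    rw [h5, h3]
    noncomm_ring
  have h5 : (2 * s - s * s) * (2 * s - s * s) =
      4 * (s * s) - 4 * (s * (s * s)) + s * s * (s * s) := by noncomm_ring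
  rw [h5, h3, h4]
  noncomm_ring

omit hH in
lemma s_zero {s : Cor C X} (h3 : s * (s * s) = 2 * (s * s) - s) (h : 2 * s - s * s = 0) :
    s = 0 := by
  have h1 : s * s = 2 * s := (sub_eq_zero.1 h).symm
  have h2 : s * (s * s) = 4 * s := by
    rw [h1]
    have : s * (2 * s) = 2 * (s * s) := by noncomm_ring
    rw [this, h1]
    noncomm_ring
  rw [h2, h1] at h3
  have h4 : 4 * s = 2 * (2 * s) - s + s := by noncomm_ring
  have h5 : (2 : Cor C X) * (2 * s) - s = 4 * s - s := by noncomm_ring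
  rw [h5] at h3
  have h6 : s = 4 * s - (4 * s - s) := by abel
  rw [h6, ← h3, sub_self]

lemma te_zero_of_noPh (hPh : NoPh H X) (he : CutR H X.dim e) (hL : LowR H e) :
    tpR C X e * e = 0 := by
  have h3 := cube he hL rfl
  apply s_zero h3
  apply hPh _ _ (psi_idem h3)
  have hs := HT_te he
  have h2 : (2 : Cor C X) ∈ cor0 C X := by
    have : (2 : Cor C X) = 1 + 1 := by norm_num
    rw [this]
    exact (cor0 C X).add_mem (cor0 C X).one_mem (cor0 C X).one_mem
  exact (hs.mul_left h2).sub (hs.mul_left hs.mem)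

/-- If all lower halves have the property `LowR` then `e^t e = 0`. -/
lemma te_zero_of_all (hA : ∀ e : Cor C X, CutR H X.dim e → LowR H e) (he : CutR H X.dim e) :
    tpR C X e * e = 0 := by
  set s := tpR C X e * e with hs
  have h3 := cube he (hA e he) hs
  apply s_zero h3
  set ψ := 2 * s - s * s with hψ
  have hsH : HT H s := HT_te he
  have h2 : (2 : Cor C X) ∈ cor0 C X := by
    have : (2 : Cor C X) = 1 + 1 := by norm_num
    rw [this]
    exact (cor0 C X).add_mem (cor0 C X).one_mem (cor0 C X).one_mem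
  have hψH : HT H ψ := (hsH.mul_left h2).sub (hsH.mul_left hsH.mem)
  have hψψ : ψ * ψ = ψ := psi_idem h3
  have hse : s * e = s := by rw [hs, mul_assoc, he.idem]
  have hst : tpR C X s = s := by rw [hs, tpR_mul, tpR_tpR]
  clear_value s
  have hψe : ψ * e = ψ := by
    have h4 : ψ * e = 2 * (s * e) - s * (s * e) := by rw [hψ, sub_mul, mul_assoc, mul_assoc]
    rw [h4, hse]
  have hψt : tpR C X ψ = ψ := by
    have h4 : (2 : Cor C X) * s = s + s := two_mul s
    rw [hψ, h4, map_sub, map_add, tpR_mul, hst]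
  have hi : (e + -(e * ψ)) * (e + -(e * ψ)) = e + -(e * ψ) := by
    have h4 : (e + -(e * ψ)) * (e + -(e * ψ)) =
        e * e - e * e * ψ - e * (ψ * e) + e * (ψ * e) * ψ := by noncomm_ring
    rw [h4, he.idem, hψe, mul_assoc, hψψ]
    abel
  have he' := he.add_HT (hψH.mul_left he.mem).neg hi
  have h5 := hA _ he' ψ hψH
  have h6 : tpR C X (e + -(e * ψ)) = tpR C X e - ψ * tpR C X e := by
    rw [map_add, map_neg, tpR_mul, hψt, sub_eq_add_neg]
  rw [h6] at h5
  have h7 : (1 - (e + -(e * ψ))) * ψ = ψ := by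
    have h8 : (1 - (e + -(e * ψ))) * ψ = ψ - e * ψ + e * (ψ * ψ) := by noncomm_ring
    rw [h8, hψψ]
    abel
  have h9 : ψ * (1 - (tpR C X e - ψ * tpR C X e)) = ψ := by
    have h8 : ψ * (1 - (tpR C X e - ψ * tpR C X e)) =
        ψ - ψ * tpR C X e + ψ * ψ * tpR C X e := by noncomm_ring
    rw [h8, hψψ]
    abel
  rw [h7, h9] at h5
  exact h5

/-- Orthogonal lower halves. -/
lemma orth_half (he : CutR H X.dim e) (hL : LowR H e) (hte : tpR C X e * e = 0) :
    ∃ f : Cor C X, CutR H X.dim f ∧ LowR H f ∧ f * tpR C X f = 0 ∧ tpR C X f * f = 0 ∧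
      e * f = f ∧ f * e = e := by
  set t := tpR C X e with ht
  have htt : t * t = t := by rw [ht, ← tpR_mul, he.idem]
  set x : Cor C X := -((1 / 2 : ℚ) • (e * t)) with hx
  have hxH : HT H x := by
    have h1 : HT H (e * t) := HT_et he
    have h2 : HT H ((1 / 2 : ℚ) • (e * t)) := by
      have h3 : (1 / 2 : ℚ) • (e * t) = (algebraMap ℚ (Cor C X) (1 / 2)) * (e * t) := by
        rw [Algebra.smul_def]
      rw [h3]
      exact h1.mul_left ((cor0 C X).algebraMap_mem _)
    exact h2.neg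
  have hee := he.idem
  have e1 : e * x = x := by
    rw [hx, mul_neg, mul_smul_comm, ← mul_assoc, hee]
  have e2 : x * e = 0 := by
    rw [hx, neg_mul, smul_mul_assoc, mul_assoc, hte, mul_zero, smul_zero, neg_zero]
  have e3 : x * x = 0 := by
    nth_rw 2 [← e1]
    rw [← mul_assoc, e2, zero_mul]
  have hi : (e + x) * (e + x) = e + x := by
    rw [mul_add, add_mul, add_mul, hee, e1, e2, e3]
    abel
  have hf := he.add_HT hxH hi
  have hft : tpR C X (e + x) = t + x := by
    rw [map_add, hx, map_neg, tpR_smul, tpR_mul, ← ht, ht, tpR_tpR]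
  have hef : e * (e + x) = e + x := by rw [mul_add, hee, e1]
  have hfe : (e + x) * e = e := by rw [add_mul, hee, e2, add_zero]
  have e4 : t * x = 0 := by
    rw [hx, mul_neg, mul_smul_comm, ← mul_assoc, hte, zero_mul, smul_zero, neg_zero]
  have e5 : x * t = x := by
    rw [hx, neg_mul, smul_mul_assoc, mul_assoc, htt]
  refine ⟨e + x, hf, ?_, ?_, ?_, hef, hfe⟩
  · intro γ hγ
    have h1 : (1 - (e + x)) * (1 - e) = 1 - (e + x) := by
      rw [mul_sub, mul_one, sub_mul, one_mul, hfe, sub_self, sub_zero]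
    have h2 : (1 - t) * (1 - (t + x)) = 1 - (t + x) := by
      have h3 : t * (t + x) = t := by rw [mul_add, htt, e4, add_zero]
      rw [sub_mul, one_mul, mul_sub, mul_one, h3, sub_self, sub_zero]
    rw [hft, ← h1, ← h2]
    have h4 := hL γ hγ
    calc (1 - (e + x)) * (1 - e) * γ * ((1 - t) * (1 - (t + x))) =
          (1 - (e + x)) * ((1 - e) * γ * (1 - t)) * (1 - (t + x)) := by simp only [mul_assoc]
      _ = 0 := by rw [h4, mul_zero, zero_mul]
  · rw [hft]
    have h1 : (e + x) * (t + x) = e * t + e * x + x * t + x * x := by noncomm_ring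
    rw [h1, e1, e5, e3, add_zero, hx]
    have h2 : e * t = (1 / 2 : ℚ) • (e * t) + (1 / 2 : ℚ) • (e * t) := by
      rw [← add_smul]; norm_num
    nth_rw 1 [h2]
    abel
  · rw [hft]
    have h1 : (t + x) * (e + x) = t * e + t * x + x * e + x * x := by noncomm_ring
    rw [h1, hte, e4, e2, e3]
    simp

lemma TI_of_orth (he : CutR H X.dim e) (hL : LowR H e) (h0 : e * tpR C X e = 0) :
    TI (cor0 C X) e := by
  refine ⟨he.mem, he.idem, fun g hg => ?_⟩
  have h1 := hL _ (HT_beyond he hg)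
  have h2 : (1 - e) * (1 - e) = 1 - e := by
    rw [mul_sub, mul_one, sub_mul, one_mul, he.idem, sub_self, sub_zero]
  have h3 : (1 - e) * ((1 - e) * g * e) * (1 - tpR C X e) =
      ((1 - e) * (1 - e)) * g * (e - e * tpR C X e) := by noncomm_ring
  rw [h3, h2, h0, sub_zero] at h1
  exact h1

/-- If all lower halves have the property `LowR` then there are no phantoms. -/
lemma noPh_of_low (hA : ∀ e : Cor C X, CutR H X.dim e → LowR H e) (he : CutR H X.dim e) :
    NoPh H X := by
  obtain ⟨f, hf, hLf, h1, h2, -, -⟩ := orth_half he (hA e he) (te_zero_of_all hA he)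
  have hT := TI_of_orth hf hLf h1
  have key : ∀ q : Cor C X, HT H q → q * q = q → q * f = 0 := by
    intro q hq hqq
    have hqf := hT.eq hq.mem
    rw [hqf]
    set y := f * q * f with hy
    have hyy : y * y = y := by
      calc y * y = f * q * (f * f) * q * f := by simp only [hy, mul_assoc]
        _ = f * q * (f * q * f) := by rw [hf.idem]; simp only [mul_assoc]
        _ = f * (q * q) * f := by rw [← hy, ← hqf]; simp only [mul_assoc]
        _ = y := by rw [hqq]
    have hfy : f * y = y := by rw [hy, ← mul_assoc, ← mul_assoc, hf.idem]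
    have hyf : y * f = y := by rw [hy, mul_assoc, hf.idem]
    have hyH : HT H y := (hq.mul_left hf.mem).mul_right hf.mem
    have hi : (f + -y) * (f + -y) = f + -y := by
      rw [mul_add, add_mul, add_mul, hf.idem, neg_mul, mul_neg, neg_mul_neg, hfy, hyf, hyy]
      abel
    have h3 := hA _ (hf.add_HT hyH.neg hi) y hyH
    have h4 : tpR C X (f + -y) = tpR C X f - tpR C X y := by rw [map_add, map_neg, sub_eq_add_neg]
    rw [h4] at h3
    have h5 : (1 - (f + -y)) * y = y := by
      have h6 : (1 - (f + -y)) * y = y - f * y + y * y := by noncomm_ring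
      rw [h6, hfy, hyy]; abel
    have h7 : y * tpR C X f = 0 := by rw [← hyf, mul_assoc, h1, mul_zero]
    have h8 : y * tpR C X y = 0 := by
      have h9 : tpR C X y = tpR C X f * tpR C X y := by rw [← tpR_mul, hyf]
      rw [h9, ← mul_assoc, h7, zero_mul]
    have h10 : y * (1 - (tpR C X f - tpR C X y)) = y - y * tpR C X f + y * tpR C X y := by
      noncomm_ring
    rw [h5, h10, h7, h8, sub_zero, add_zero] at h3
    exact h3
  intro q hq hqq
  have a1 : q * f = 0 := key q hq hqq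
  have a2 : tpR C X f * q = 0 := by
    have h3 := key (tpR C X q) (HT_tp hq) (by rw [← tpR_mul, hqq])
    have h4 := congrArg (tpR C X) h3
    rw [tpR_mul, tpR_tpR, map_zero] at h4
    exact h4
  have a3 := hLf q hq
  have a4 : q * (1 - tpR C X f) = 0 := by
    have h3 : q * ((1 - f) * q * (1 - tpR C X f)) =
        (q * q - q * f * q) * (1 - tpR C X f) := by noncomm_ring
    rw [a3, mul_zero, hqq, a1, zero_mul, sub_zero] at h3
    exact h3.symm
  have a5 : q = q * tpR C X f := by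
    rw [mul_sub, mul_one, sub_eq_zero] at a4
    exact a4
  calc q = q * q := hqq.symm
    _ = q * tpR C X f * q := by rw [← a5]
    _ = 0 := by rw [mul_assoc, a2, mul_zero]

end half

/-! ### Strict lowering of the weights -/

lemma SL_of_low (hPh : ∀ X : 𝒱.Obj, NoPh H X)
    (hE : ∀ X : 𝒱.Obj, ∃ f : Cor C X, CutR H X.dim f ∧ LowR H f ∧ f * tpR C X f = 0)
    (hodd : ∃ W : 𝒱.Obj, Odd W.dim) {P : ℕ → Cor C X} (h : IsCK H X P) (hN : NR P P) : SL H P := by
  intro γ hγ a b hab
  rcases lt_or_eq_of_le hab with h1 | rfl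
  · exact hN γ hγ.mem a b h1
  by_cases ha : 2 * X.dim < a
  · have : P a = 0 := h.out a ha
    rw [this, mul_zero]
  obtain ⟨Y, l, hl, hal⟩ : ∃ (Y : 𝒱.Obj) (l : ℕ), l ≤ Y.dim ∧ X.dim + Y.dim = a + 2 * l := by
    rcases Nat.even_or_odd' a with ⟨t, rfl | rfl⟩
    · exact ⟨X, X.dim - t, by omega, by omega⟩
    · obtain ⟨W, s, hs⟩ := hodd
      exact ⟨X.prod W, X.dim + s - t, by rw [dim_prod]; omega, by rw [dim_prod]; omega⟩
  obtain ⟨i, r, hr⟩ := exists_retr H X Y hl
  obtain ⟨E, hcE, hLE, h0⟩ := hE (X.prod Y)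
  have hTE := TI_of_orth hcE hLE h0
  have c1 := CutR_cpr hr hTE hcE
  have c2 := CutR_cpr hr (TI_tp hTE) (CutR_tp hcE)
  have e1 : (((X.prod Y).dim : ℕ) : ℤ) - 2 * (l : ℤ) = (a : ℤ) := by rw [dim_prod]; omega
  have e2 : 2 * (((X.prod Y).dim : ℕ) : ℤ) - (((X.prod Y).dim : ℕ) : ℤ) + 1 - 2 * (l : ℤ) =
      ((a + 1 : ℕ) : ℤ) := by rw [dim_prod]; omega
  rw [e1] at c1
  rw [e2] at c2
  obtain ⟨b1, -⟩ := eq_of_noPh (hPh X) (ct_TI h hN a) (ct_cut h a) c1
  obtain ⟨-, b2⟩ := eq_of_noPh (hPh X) (ct_TI h hN (a + 1)) (ct_cut h (a + 1)) c2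
  have hg : HT H (P a * γ * P a) := (hγ.mul_left (ck_mem h a)).mul_right (ck_mem h a)
  have h2 := hLE _ (HT_lif hr hg)
  have h3 := congrArg (cpr i r) h2
  rw [cpr_mul, cpr_sub, cpr_one hr, cpr_zero] at h3
  have b3 : P a * cpr i r E = 0 := by
    rw [← b1, ← mul_assoc, (ct_mul_zero h le_rfl).2, zero_mul]
  have b4 : cpr i r (1 - tpR C (X.prod Y) E) * P a = P a := by
    have h4 := (ct_mul h (Nat.lt_succ_self a)).1
    calc cpr i r (1 - tpR C (X.prod Y) E) * P a =
          cpr i r (1 - tpR C (X.prod Y) E) * (ct P (a + 1) * P a) := by rw [h4]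
      _ = (cpr i r (1 - tpR C (X.prod Y) E) * ct P (a + 1)) * P a := by rw [mul_assoc]
      _ = P a := by rw [b2, h4]
  have h5 := congrArg (fun z => P a * z * P a) h3
  simp only [mul_zero, zero_mul] at h5
  rw [← h5]
  have h6 : P a * ((1 - cpr i r E) * (P a * γ * P a) * cpr i r (1 - tpR C (X.prod Y) E)) * P a =
      (P a * P a - P a * cpr i r E * P a) * γ * P a *
        (cpr i r (1 - tpR C (X.prod Y) E) * P a) := by noncomm_ring
  rw [h6, b3, b4, zero_mul, sub_zero, ck_idem h, mul_assoc (P a * γ), ck_idem h]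

lemma one_sub_ct {P : ℕ → Cor C X} (h : IsCK H X P) (j : ℕ) (hj : j ≤ 2 * X.dim + 1) :
    (1 : Cor C X) - ct P j = ∑ b ∈ (Finset.range (2 * X.dim + 1)).filter (fun b => j ≤ b), P b := by
  rw [← h.sum_eq, ct, sub_eq_iff_eq_add]
  rw [← Finset.sum_filter_add_sum_filter_not (Finset.range (2 * X.dim + 1)) (fun b => j ≤ b)]
  congr 1
  apply Finset.sum_congr _ fun _ _ => rfl
  ext b
  simp only [Finset.mem_filter, Finset.mem_range]
  omega

lemma low_of_SL {P : ℕ → Cor C X} (h : IsCK H X P) (hS : SL H P) : LowR H (ct P X.dim) := by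
  intro γ hγ
  let D : ℕ → Cor C X := dualCK C (fun i => uc (P i))
  have hD : IsCK H X D := IsCK.dual (π := fun i => uc (P i)) h
  have hD1 : ∀ n ≤ 2 * X.dim, tpR C X (P n) = D (2 * X.dim - n) := by
    intro n hn
    have : D (2 * X.dim - n) = tpR C X (P (2 * X.dim - (2 * X.dim - n))) := by
      simp only [D, dualCK]
      rw [if_pos (by omega)]
      rfl
    rw [this]
    congr 2
    omega
  have h1 : (1 : Cor C X) - tpR C X (ct P X.dim) = tpR C X (1 - ct P X.dim) := by
    rw [map_sub, tpR_one]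
  rw [h1, one_sub_ct h X.dim (by omega), map_sum, Finset.sum_mul, Finset.sum_mul]
  apply Finset.sum_eq_zero
  intro b hb
  rw [Finset.mem_filter, Finset.mem_range] at hb
  rw [Finset.mul_sum]
  apply Finset.sum_eq_zero
  intro a ha
  rw [Finset.mem_filter, Finset.mem_range] at ha
  rw [hD1 a (by omega)]
  exact SL_pair h hS hD h hγ (by omega)

lemma noPh_of_SL {P : ℕ → Cor C X} (h : IsCK H X P) (hS : SL H P) : NoPh H X := by
  intro q hq hqq
  obtain ⟨n, hn⟩ := isNilpotent_of_SL h hS q hq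
  have h1 : ∀ m : ℕ, q ^ (m + 1) = q := by
    intro m
    induction m with
    | zero => rw [zero_add, pow_one]
    | succ m ih => rw [pow_succ, ih, hqq]
  have h2 := h1 n
  rw [pow_succ, hn, zero_mul] at h2
  exact h2.symm

omit hC hH in
theorem murreD_tfae (C : TheoryData.{u, v, 0} 𝒱 ℚ) [hC : IsChowProj C] {K : Type w} [Field K]
    (H : WeilTheoryData.{u, v, w} C K) [hH : IsWeilProj H] (hodd : ∃ W : 𝒱.Obj, Odd W.dim) :
    [(∀ X : 𝒱.Obj, ∃ π : ℕ → C.A (X.prod X), IsCK H X π) ∧ ∀ X : 𝒱.Obj, MurreD H X,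
      ∀ X : 𝒱.Obj, (∃ e : C.A (X.prod X), IsHalf H X e) ∧
        ∀ e : C.A (X.prod X), IsHalf H X e → LowersHT H X e,
      ∀ X : 𝒱.Obj, (∃ e : C.A (X.prod X), IsHalf H X e ∧ LowersHT H X e) ∧ NoPhantom H X,
      (∀ X : 𝒱.Obj, ∃ π : ℕ → C.A (X.prod X), IsCK H X π) ∧ ∀ X : 𝒱.Obj, MurreD H X ∧
        MurreC H X ∧ MurreB0 H X ∧ StrictlyLowers H X ∧ NilpotentOfIndex H X (2 * X.dim + 1) ∧
          UniqueUpToConjugation H X].TFAE := by
  tfae_have 4 → 1 := fun h => ⟨h.1, fun X => (h.2 X).1⟩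
  tfae_have 1 → 2 := by
    rintro ⟨hA, hD⟩ X
    obtain ⟨π, hπ⟩ := hA X
    have hS : SL H (fun i => cr (π i)) := SL_of_murreD (hD (X.prod X)) hπ
    have hN := NR_of_SL (isCK_cr hπ) hS
    have hPh := noPh_of_SL (isCK_cr hπ) hS
    refine ⟨⟨_, half_of_ck (isCK_cr hπ)⟩, fun e he => low_iff.2 fun γ hγ => ?_⟩
    set c := ct (fun i => cr (π i)) X.dim with hc
    obtain ⟨e1, e2⟩ := eq_of_noPh hPh (ct_TI (isCK_cr hπ) hN X.dim) (ct_cut (isCK_cr hπ) X.dim)
      (half_iff.1 he)
    rw [← hc] at e1 e2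
    have h1 := low_of_SL (isCK_cr hπ) hS γ hγ
    rw [← hc] at h1
    have h2 : (1 - cr e) * (1 - c) = 1 - cr e := by
      rw [mul_sub, mul_one, sub_mul, one_mul, e2, sub_self, sub_zero]
    have h3 : (1 - tpR C X c) * (1 - tpR C X (cr e)) = 1 - tpR C X (cr e) := by
      have h4 := congrArg (tpR C X) h2
      rw [tpR_mul, map_sub, map_sub, tpR_one] at h4
      exact h4
    rw [← h2, ← h3]
    calc (1 - cr e) * (1 - c) * γ * ((1 - tpR C X c) * (1 - tpR C X (cr e))) =
          (1 - cr e) * ((1 - c) * γ * (1 - tpR C X c)) * (1 - tpR C X (cr e)) := by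
            simp only [mul_assoc]
      _ = 0 := by rw [h1, mul_zero, zero_mul]
  tfae_have 2 → 3 := by
    intro h X
    obtain ⟨⟨e, he⟩, hL⟩ := h X
    exact ⟨⟨e, he, hL e he⟩, noPh_iff.2 (noPh_of_low (fun e he => low_iff.1 (hL e
      (half_iff.2 he))) (half_iff.1 he))⟩
  tfae_have 3 → 4 := by
    intro h
    have hPh : ∀ X : 𝒱.Obj, NoPh H X := fun X => noPh_iff.1 (h X).2
    have hE : ∀ X : 𝒱.Obj, ∃ f : Cor C X, CutR H X.dim f ∧ LowR H f ∧ f * tpR C X f = 0 := by
      intro X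
      obtain ⟨e, he, hL⟩ := (h X).1
      obtain ⟨f, h1, h2, h3, -⟩ := orth_half (half_iff.1 he) (low_iff.1 hL)
        (te_zero_of_noPh (hPh X) (half_iff.1 he) (low_iff.1 hL))
      exact ⟨f, h1, h2, h3⟩
    obtain ⟨hA, hX⟩ := C_of_triangular (H := H) (fun X => by
      obtain ⟨f, h1, h2, h3⟩ := hE X
      exact ⟨uc f, half_iff.2 h1, triangular_of_TI (H := H) (TI_of_orth h1 h2 h3)⟩)
      (fun X => (h X).2)
    refine ⟨hA, fun X => ?_⟩
    obtain ⟨π, hπ⟩ := hA X
    have hN := (hX X).2 _ _ (isCK_cr hπ) (isCK_cr hπ)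
    exact all_of_SL (isCK_cr hπ) (SL_of_low hPh hE hodd (isCK_cr hπ) hN)
  tfae_finish

end Pool.Agent.Q69.Cut
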